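import Pool.Agent.H67.Q.Geo
import Pool.Agent.H67.Q.Ends
import Pool.Agent.H67.Q.Words

/-!
# A translation of the tree of a splitting with a deep point between two edges of its axis

Row W5 of project QI2 (MP_bbdce3_al).
-/

set_option autoImplicit false

namespace Pool.Agent.QIS

open MulAction

section W5
variable {G : Type} [Group G] {S : Set G}

private theorem w5_dist_le (E : Splitting G) (g : G) (x y : E.V) :
    E.T.dist (g • x) (g • y) ≤ E.T.dist x y := by
  obtain ⟨p, hp⟩ := (E.tree.connected.preconnected x y).exists_walk_length_eq_dist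
  let f : E.T →g E.T := ⟨fun x => g • x, fun h => E.map_adj g h⟩
  have := SimpleGraph.dist_le (p.map f)
  rw [SimpleGraph.Walk.length_map, hp] at this
  exact this

private theorem w5_dist (E : Splitting G) (g : G) (x y : E.V) :
    E.T.dist (g • x) (g • y) = E.T.dist x y := by
  refine le_antisymm (w5_dist_le E g x y) ?_
  have := w5_dist_le E g⁻¹ (g • x) (g • y)
  rwa [inv_smul_smul, inv_smul_smul] at this

/-- orbit maps are Lipschitz -/
theorem exists_lip' (hS : S.Finite) (hSg : Subgroup.closure S = ⊤) (E : Splitting G) :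
    ∃ L : ℕ, ∀ x y : G, E.T.dist (x • E.a) (y • E.a) ≤ L * wdist S x y := by
  obtain ⟨L, hL⟩ := (hS.image (fun s => E.T.dist E.a (s • E.a))).bddAbove
  have hL' : ∀ s ∈ S, E.T.dist E.a (s • E.a) ≤ L := fun s hs => hL ⟨s, hs, rfl⟩
  have h1 : ∀ s, (s ∈ S ∨ s⁻¹ ∈ S) → E.T.dist E.a (s • E.a) ≤ L := by
    rintro s (hs | hs)
    · exact hL' s hs
    · have := hL' _ hs
      rw [← w5_dist E s, smul_inv_smul, SimpleGraph.dist_comm] at this
      exact this
  have h2 : ∀ l : List G, (∀ x ∈ l, x ∈ S ∨ x⁻¹ ∈ S) →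
      E.T.dist E.a (l.prod • E.a) ≤ L * l.length := by
    intro l
    induction l with
    | nil => intro _; simp
    | cons s l ih =>
      intro hl
      have h3 := ih (fun x hx => hl x (List.mem_cons_of_mem _ hx))
      have h4 := h1 s (hl s List.mem_cons_self)
      rw [List.prod_cons, mul_smul, List.length_cons]
      calc E.T.dist E.a (s • l.prod • E.a)
          ≤ E.T.dist E.a (s • E.a) + E.T.dist (s • E.a) (s • l.prod • E.a) :=
            E.tree.connected.dist_triangle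
        _ ≤ L + L * l.length := by rw [w5_dist]; exact add_le_add h4 h3
        _ = L * (l.length + 1) := by ring
  refine ⟨L, fun x y => ?_⟩
  obtain ⟨l, hl, hprod, hlen⟩ := q6_exists_word hSg (x⁻¹ * y)
  have h5 := h2 l hl
  rw [hprod, ← w5_dist E x, ← mul_smul, mul_inv_cancel_left] at h5
  have h6 : l.length = wdist S x y := hlen
  rw [← h6]
  exact h5

private theorem w5_sd_one (E : Splitting G) (x : E.V) : sd E 1 x ↔ side E.T E.a E.b x := by
  unfold sd
  rw [one_smul, one_smul]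

/-- a vertex far from the base edge gives a deep point -/
private theorem w5_deep (hS : S.Finite) (hSg : Subgroup.closure S = ⊤) (E : Splitting G) (D : ℕ)
    (P : E.V → Prop) (hP : Unbdd E.T {x | P x})
    (hadj : ∀ x y : E.V, E.T.Adj x y → s(x, y) ≠ s(E.a, E.b) → (P x ↔ P y)) :
    ∃ t : G, P (t • E.a) ∧ t ∉ nbhd S D (ES E 1) := by
  obtain ⟨L, hL⟩ := exists_lip' hS hSg E
  obtain ⟨u, hu, hd⟩ := hP E.a (L * D + 3)
  have hu' : P u := hu
  obtain ⟨t, ht⟩ := exists_vertex E u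
  have hab : E.T.dist E.a E.b = 1 := SimpleGraph.dist_eq_one_iff_adj.2 E.adj
  have key : P (t • E.a) ∧ L * D + 2 ≤ E.T.dist E.a (t • E.a) := by
    rcases ht with h | h
    · rw [h]
      exact ⟨hu', by omega⟩
    · have h1 : E.T.dist (t • E.a) (t • E.b) = 1 :=
        SimpleGraph.dist_eq_one_iff_adj.2 (adj_k E t)
      have h2 := E.tree.connected.dist_triangle (u := E.a) (v := t • E.a) (w := t • E.b)
      rw [h1, h] at h2
      refine ⟨?_, by omega⟩
      refine (hadj _ _ (adj_k E t) ?_).2 (by rw [h]; exact hu')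
      intro h3
      rw [Sym2.eq_iff, h] at h3
      rcases h3 with ⟨-, h3⟩ | ⟨-, h3⟩
      · rw [h3] at hd
        omega
      · rw [h3, SimpleGraph.dist_self] at hd
        omega
  refine ⟨t, key.1, ?_⟩
  rintro ⟨l, hl, hdl⟩
  have h1 := hL t l
  have h2 : l • E.a = E.a := by
    have := hl.1
    rwa [one_smul] at this
  rw [h2, SimpleGraph.dist_comm] at h1
  have h3 : L * wdist S t l ≤ L * D := Nat.mul_le_mul_left L hdl
  omega

/-- both sides of the base edge are deep -/
theorem exists_deep (hS : S.Finite) (hSg : Subgroup.closure S = ⊤) (E : Splitting G) (D : ℕ) :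
    (∃ t : G, sd E 1 (t • E.a) ∧ t ∉ nbhd S D (ES E 1)) ∧
    (∃ t : G, ¬ sd E 1 (t • E.a) ∧ t ∉ nbhd S D (ES E 1)) := by
  obtain ⟨h1, h2⟩ := E.unbdd
  constructor
  · refine w5_deep hS hSg E D (fun x => sd E 1 x) ?_ fun x y h hne => ?_
    · simp only [w5_sd_one]
      exact h1
    · simp only [w5_sd_one]
      exact side_adj h hne
  · refine w5_deep hS hSg E D (fun x => ¬ sd E 1 x) ?_ fun x y h hne => ?_
    · simp only [w5_sd_one]
      exact h2
    · simp only [w5_sd_one]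
      exact not_congr (side_adj h hne)

/-- some translate of one side of the edge `{a, b}`, or of its complement, is strictly inside
the side `P` -/
private theorem w5_inside (E : Splitting G) {a b : E.V} (hab : E.T.Adj a b)
    (hP : Unbdd E.T {x | side E.T a b x}) :
    ∃ g : G, ((∀ x, sd E g x → side E.T a b x) ∧ ¬ sd E g a) ∨
      ((∀ x, ¬ sd E g x → side E.T a b x) ∧ sd E g a) := by
  obtain ⟨u, hu, hd⟩ := hP a 2
  have hu' : side E.T a b u := hu
  have hne : u ≠ a := by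
    rintro rfl
    rw [SimpleGraph.dist_self] at hd
    omega
  obtain ⟨z, hz, hza⟩ := exists_first E.tree hne
  have hne2 : s(u, z) ≠ s(a, b) := by
    intro h
    rw [Sym2.eq_iff] at h
    rcases h with ⟨h, -⟩ | ⟨h, -⟩
    · exact hne h
    · rw [h, SimpleGraph.dist_eq_one_iff_adj.2 hab] at hd
      omega
  have hzb : ¬ side E.T u z b := fun h => hza ((side_adj hab hne2.symm).2 h)
  obtain ⟨-, hb⟩ := side_beyond E.tree hz hab hu' hzb hne2
  have hsub : ∀ x, side E.T u z x → side E.T a b x := by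
    intro x hx
    by_contra h
    exact hb x h hx
  obtain ⟨g, ⟨h1, h2⟩ | ⟨h1, h2⟩⟩ := exists_edge E hz
  · refine ⟨g, Or.inl ?_⟩
    unfold sd
    rw [h1, h2]
    exact ⟨hsub, hza⟩
  · refine ⟨g, Or.inr ?_⟩
    unfold sd
    rw [h1, h2]
    refine ⟨fun x hx => hsub x ?_, (side_swap E.tree hz _).2 hza⟩
    rw [side_swap E.tree hz x] at hx
    exact not_not.1 hx

/-- a translation -/
private theorem w5_trans (E : Splitting G) :
    ∃ g : G, (∀ x, sd E g x → sd E 1 x) ∧ ∃ y, sd E 1 y ∧ ¬ sd E g y := by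
  obtain ⟨hu1, hu2⟩ := E.unbdd
  have hu2' : Unbdd E.T {x | side E.T E.b E.a x} := by
    intro x n
    obtain ⟨y, hy, hd⟩ := hu2 x n
    exact ⟨y, (side_swap E.tree E.adj y).2 hy, hd⟩
  have hsb : ∀ x, side E.T E.b E.a x ↔ ¬ sd E 1 x := by
    intro x
    rw [side_swap E.tree E.adj, w5_sd_one]
  have ha : sd E 1 E.a := by rw [w5_sd_one]; exact side_self _ _
  have hbn : ¬ sd E 1 E.b := by rw [w5_sd_one]; exact not_side_other E.tree E.adj
  obtain ⟨g₁, h1⟩ := w5_inside E E.adj hu1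
  simp only [← w5_sd_one] at h1
  rcases h1 with h1 | h1
  · exact ⟨g₁, h1.1, E.a, ha, h1.2⟩
  obtain ⟨g₂, h2⟩ := w5_inside E E.adj.symm hu2'
  simp only [hsb] at h2
  rcases h2 with h2 | h2
  · -- the complement of `g₁ F` is inside `F`, and `g₂ F` is inside the complement of `F`
    refine ⟨g₁⁻¹ * g₂, fun x hx => ?_, g₁⁻¹ • E.b, ?_, ?_⟩
    · have h3 := sd_smul E g₁ (g₁⁻¹ * g₂) x
      rw [mul_inv_cancel_left] at h3
      have h4 := h2.1 _ (h3.2 hx)
      have h5 : sd E g₁ (g₁ • x) := by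
        by_contra h6
        exact h4 (h1.1 _ h6)
      have h6 := sd_smul E g₁ 1 x
      rw [mul_one] at h6
      exact h6.1 h5
    · have h6 := sd_smul E g₁ 1 (g₁⁻¹ • E.b)
      rw [mul_one, smul_inv_smul] at h6
      rw [← h6]
      by_contra h7
      exact hbn (h1.1 _ h7)
    · have h3 := sd_smul E g₁ (g₁⁻¹ * g₂) (g₁⁻¹ • E.b)
      rw [mul_inv_cancel_left, smul_inv_smul] at h3
      rw [← h3]
      exact h2.2
  · -- `F` is inside `g₂ F`
    refine ⟨g₂⁻¹, fun x hx => ?_, g₂⁻¹ • E.b, ?_, ?_⟩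
    · have h3 := sd_smul E g₂ g₂⁻¹ x
      rw [mul_inv_cancel] at h3
      have h5 : sd E g₂ (g₂ • x) := by
        by_contra h6
        exact h2.1 _ h6 (h3.2 hx)
      have h6 := sd_smul E g₂ 1 x
      rw [mul_one] at h6
      exact h6.1 h5
    · have h6 := sd_smul E g₂ 1 (g₂⁻¹ • E.b)
      rw [mul_one, smul_inv_smul] at h6
      rw [← h6]
      exact h2.2
    · have h3 := sd_smul E g₂ g₂⁻¹ (g₂⁻¹ • E.b)
      rw [mul_inv_cancel, smul_inv_smul] at h3
      rw [← h3]
      exact hbn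

/-- a translation along the tree with a deep point between two edges of its axis -/
theorem exists_chain (hS : S.Finite) (hSg : Subgroup.closure S = ⊤) (E : Splitting G) (D : ℕ) :
    ∃ q x₀ : G, (∀ x : E.V, sd E q x → sd E 1 x) ∧ sd E 1 (x₀ • E.a) ∧ ¬ sd E q (x₀ • E.a) ∧
      x₀ ∉ nbhd S D (ES E 1) ∧ x₀ ∉ nbhd S D (ES E q) := by
  obtain ⟨g, hg, y, hy1, hy2⟩ := w5_trans E
  obtain ⟨⟨x₀, hx1, hx2⟩, -⟩ := exists_deep hS hSg E D
  -- the chain is strictly decreasing
  have hstep : ∀ i : ℕ, ∀ x : E.V, sd E (g ^ (i + 1)) x → sd E (g ^ i) x := by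
    intro i x hx
    have h1 := sd_smul E (g ^ i) g ((g ^ i)⁻¹ • x)
    rw [smul_inv_smul, ← pow_succ] at h1
    have h2 := sd_smul E (g ^ i) 1 ((g ^ i)⁻¹ • x)
    rw [smul_inv_smul, mul_one] at h2
    exact h2.2 (hg _ (h1.1 hx))
  have hmono : ∀ i j : ℕ, i ≤ j → ∀ x : E.V, sd E (g ^ j) x → sd E (g ^ i) x := by
    intro i j hij
    induction hij with
    | refl => exact fun x hx => hx
    | @step j hij ih => exact fun x hx => ih x (hstep j x hx)
  have hstrict : ∀ i : ℕ, ∃ x : E.V, sd E (g ^ i) x ∧ ¬ sd E (g ^ (i + 1)) x := by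
    intro i
    refine ⟨g ^ i • y, ?_, ?_⟩
    · have h2 := sd_smul E (g ^ i) 1 y
      rw [mul_one] at h2
      exact h2.2 hy1
    · have h1 := sd_smul E (g ^ i) g y
      rw [← pow_succ] at h1
      exact fun h => hy2 (h1.1 h)
  have hinj : ∀ i j : ℕ, (∀ x : E.V, sd E (g ^ i) x ↔ sd E (g ^ j) x) → i = j := by
    have h1 : ∀ i j : ℕ, i < j → (∀ x : E.V, sd E (g ^ i) x ↔ sd E (g ^ j) x) → False := by
      intro i j hij h
      obtain ⟨x, hx1, hx2⟩ := hstrict i
      exact hx2 (hmono (i + 1) j hij x ((h x).1 hx1))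
    intro i j h
    rcases lt_trichotomy i j with h2 | h2 | h2
    · exact (h1 i j h2 h).elim
    · exact h2
    · exact (h1 j i h2 fun x => (h x).symm).elim
  -- `x₀` is outside of one of the sides
  obtain ⟨m₀, hm₀⟩ : ∃ i : ℕ, ¬ sd E (g ^ i) (x₀ • E.a) := by
    by_contra hcon
    push Not at hcon
    have hfin := side_finite E.tree (x₀ • E.a) E.b
    have hsub : Set.range (fun i : ℕ => ((g ^ i) • E.a, (g ^ i) • E.b)) ⊆
        {p : E.V × E.V | E.T.Adj p.1 p.2 ∧ side E.T p.1 p.2 (x₀ • E.a) ∧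
          ¬ side E.T p.1 p.2 E.b} := by
      rintro _ ⟨i, rfl⟩
      refine ⟨adj_k E _, hcon i, fun h => ?_⟩
      have h1 := hmono 0 i (Nat.zero_le i) E.b h
      rw [pow_zero, w5_sd_one] at h1
      exact not_side_other E.tree E.adj h1
    have hinj2 : Function.Injective (fun i : ℕ => ((g ^ i) • E.a, (g ^ i) • E.b)) := by
      intro i j hij
      rw [Prod.mk.injEq] at hij
      refine hinj i j fun x => ?_
      unfold sd
      rw [hij.1, hij.2]
    exact Set.infinite_range_of_injective hinj2 (hfin.subset hsub)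
  -- `x₀` is close to few edge spaces
  have hfin2 : {i : ℕ | x₀ ∈ nbhd S D (ES E (g ^ i))}.Finite := by
    have hch : ∀ i : ℕ, ∃ l : G, i ∈ {i : ℕ | x₀ ∈ nbhd S D (ES E (g ^ i))} →
        l ∈ ES E (g ^ i) ∧ wdist S x₀ l ≤ D := by
      intro i
      by_cases h : i ∈ {i : ℕ | x₀ ∈ nbhd S D (ES E (g ^ i))}
      · obtain ⟨l, hl⟩ := h
        exact ⟨l, fun _ => hl⟩
      · exact ⟨1, fun h' => absurd h' h⟩
    choose l hl using hch
    refine Set.Finite.of_injOn (f := l) (t := {y | wdist S x₀ y ≤ D}) (fun i hi => (hl i hi).2)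
      ?_ (ball_finite hS hSg x₀ D)
    intro i hi j hj hij
    refine hinj i j fun x => ?_
    rw [← sd_eq_of_mem E (hl i hi).1 x, hij]
    exact sd_eq_of_mem E (hl j hj).1 x
  obtain ⟨m, hm1, hm2⟩ : ∃ m, m₀ ≤ m ∧ m ∉ {i : ℕ | x₀ ∈ nbhd S D (ES E (g ^ i))} := by
    by_contra hcon
    push Not at hcon
    exact (Set.Ici_infinite m₀) (hfin2.subset fun i hi => hcon i hi)
  refine ⟨g ^ m, x₀, fun x hx => ?_, hx1, fun h => hm₀ (hmono m₀ m hm1 _ h), hx2, hm2⟩
  have := hmono 0 m (Nat.zero_le m) x hx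
  rwa [pow_zero] at this

end W5

end Pool.Agent.QIS
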