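import Pool.Agent.H67.Q.Defs

/-!
# Families of half-spaces with finite crossing: definitions

Second project of MP_bbdce3_al: one uncrossed subgroup that contains the edge group is enough.
-/

set_option autoImplicit false

namespace Pool.Agent.QIS

open MulAction

/-- A family of half-spaces in the set `I` with an action of `H`: closed under complements and
translates, any two points separated by finitely many members, each member nested with all but
finitely many members, finitely many orbits, and a two-sided infinite strictly decreasing chain. -/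
structure Walls (H : Type) {I : Type} [Group H] [MulAction H I] (W : Set (Set I)) : Prop where
  compl : ∀ A ∈ W, Aᶜ ∈ W
  inv : ∀ (h : H), ∀ A ∈ W, tr h A ∈ W
  ne : ∀ A ∈ W, A.Nonempty
  sep : ∀ x y : I, {A | A ∈ W ∧ x ∈ A ∧ y ∉ A}.Finite
  cross : ∀ A ∈ W, {B | B ∈ W ∧ ¬ Nested A B}.Finite
  orb : ∃ F : Set (Set I), F.Finite ∧ ∀ A ∈ W, ∃ h : H, tr h A ∈ F
  chain : ∃ U : ℤ → Set I, (∀ i, U i ∈ W) ∧ ∀ i, U (i + 1) ⊂ U i

/-- Vertices of the graph of `W`: orientations of the members, coherent, which differ from the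
orientations given by points in finitely many members. -/
structure IsOr {I : Type} (W : Set (Set I)) (U : Set (Set I)) : Prop where
  sub : U ⊆ W
  one : ∀ A ∈ W, A ∈ U ↔ Aᶜ ∉ U
  up : ∀ A ∈ U, ∀ B ∈ W, A ⊆ B → B ∈ U
  fin : ∀ x : I, {A | A ∈ U ∧ x ∉ A}.Finite

/-- the vertices -/
def Ors {I : Type} (W : Set (Set I)) : Type := {U : Set (Set I) // IsOr W U}

/-- the graph: two vertices are joined if exactly one pair `A`, `Aᶜ` is turned over -/
def OG {I : Type} (W : Set (Set I)) : SimpleGraph (Ors W) where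
  Adj U V := ∃ A, A ∈ U.1 ∧ Aᶜ ∈ V.1 ∧ U.1 \ V.1 = {A} ∧ V.1 \ U.1 = {Aᶜ}
  symm := ⟨by
    rintro U V ⟨A, h1, h2, h3, h4⟩
    exact ⟨Aᶜ, h2, by rwa [compl_compl], h4, by rwa [compl_compl]⟩⟩
  loopless := ⟨by
    rintro U ⟨A, h1, h2, h3, h4⟩
    have : A ∈ U.1 \ U.1 := by rw [h3]; exact rfl
    exact this.2 this.1⟩

end Pool.Agent.QIS
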