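import Pool.Agent.H67.W2.Defs
import Pool.Agent.H67.Q.Ends
import Pool.Agent.H67.Q.Geo
import Pool.Agent.H67.Q.Lines

/-!
# Sets with boundary near a two-ended subgroup of a one-ended group

Project QI2 (MP_bbdce3_al), row W3.
-/

set_option autoImplicit false

namespace Pool.Agent.QIS

section W3
variable {G : Type} [Group G] {S : Set G}

/-- neighbourhoods of a subgroup are invariant under left multiplication -/
theorem w3_nbhd_mul (C : Subgroup G) (R : ℕ) {c : G} (hc : c ∈ C) (g : G) :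
    c * g ∈ nbhd S R (C : Set G) ↔ g ∈ nbhd S R (C : Set G) := by
  constructor
  · rintro ⟨l, hl, hd⟩
    refine ⟨c⁻¹ * l, C.mul_mem (C.inv_mem hc) hl, ?_⟩
    rw [← wdist_mul_left c, mul_inv_cancel_left]
    exact hd
  · rintro ⟨l, hl, hd⟩
    refine ⟨c * l, C.mul_mem hc hl, ?_⟩
    rw [wdist_mul_left]
    exact hd

theorem w3_symm (N : Set G) {x y : G} (h : JoinedOff S N x y) : JoinedOff S N y x := by
  induction h with
  | refl => exact Relation.ReflTransGen.refl
  | tail _ hst ih =>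
    obtain ⟨⟨s, hs, h1⟩, hg, hh⟩ := hst
    exact Relation.ReflTransGen.head ⟨⟨s, hs, h1.symm⟩, hh, hg⟩ ih

theorem w3_smul (C : Subgroup G) (R : ℕ) {c : G} (hc : c ∈ C) {x y : G}
    (h : JoinedOff S (nbhd S R (C : Set G)) x y) :
    JoinedOff S (nbhd S R (C : Set G)) (c * x) (c * y) := by
  induction h with
  | refl => exact Relation.ReflTransGen.refl
  | @tail g h _ hst ih =>
    obtain ⟨⟨s, hs, h1⟩, hg, hh⟩ := hst
    refine Relation.ReflTransGen.tail ih ⟨⟨s, hs, ?_⟩, ?_, ?_⟩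
    · rcases h1 with h1 | h1
      · left
        rw [h1, mul_assoc]
      · right
        rw [h1, mul_assoc]
    · rw [w3_nbhd_mul C R hc]; exact hg
    · rw [w3_nbhd_mul C R hc]; exact hh

/-- a path off `N` which starts off `N` ends off `N` -/
theorem w3_off (N : Set G) {x y : G} (hx : x ∉ N) (h : JoinedOff S N x y) : y ∉ N := by
  induction h with
  | refl => exact hx
  | tail _ h _ => exact h.2.2

theorem w3_step_le {g h : G} (hst : ∃ s ∈ S, h = g * s ∨ g = h * s)
    (hSg : Subgroup.closure S = ⊤) : wdist S g h ≤ 1 := by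
  obtain ⟨s, hs, h1⟩ := hst
  rcases h1 with rfl | rfl
  · exact wdist_gen hs g
  · rw [wdist_comm hSg]
    exact wdist_gen hs h

/-- paths off the neighbourhood do not leave a set with boundary near `C` -/
theorem w3_stay (hSg : Subgroup.closure S = ⊤) (C : Subgroup G) (r : ℕ) (M : Set G)
    (hM : ∀ x ∈ M, ∀ y, y ∉ M → x ∈ nbhd S (r * wdist S x y + r) (C : Set G)) {x y : G}
    (hx : x ∈ M) (h : JoinedOff S (nbhd S (2 * r) (C : Set G)) x y) : y ∈ M := by
  induction h with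
  | refl => exact hx
  | @tail g h _ hst ih =>
    by_contra hh
    have h1 := hM g ih h hh
    have h2 := w3_step_le hst.1 hSg
    apply hst.2.1
    refine nbhd_mono ?_ _ h1
    have : r * wdist S g h ≤ r * 1 := Nat.mul_le_mul_left r h2
    omega

/-- each point off the neighbourhood is joined off it to a point close to `C` -/
theorem w3_close (hSg : Subgroup.closure S = ⊤) (C : Subgroup G) (R : ℕ) {x : G}
    (hx : x ∉ nbhd S R (C : Set G)) :
    ∃ c ∈ C, ∃ b : G, wlen S b ≤ R + 1 ∧ b ∉ nbhd S R (C : Set G) ∧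
      JoinedOff S (nbhd S R (C : Set G)) x (c * b) := by
  have key : ∀ (l : List G), (∀ a ∈ l, a ∈ S ∨ a⁻¹ ∈ S) → ∀ x : G, x ∉ nbhd S R (C : Set G) →
      x * l.prod ∈ nbhd S R (C : Set G) →
      ∃ y, y ∉ nbhd S R (C : Set G) ∧ y ∈ nbhd S (1 + R) (C : Set G) ∧
        JoinedOff S (nbhd S R (C : Set G)) x y := by
    intro l
    induction l with
    | nil =>
      intro _ x hx hx2
      rw [List.prod_nil, mul_one] at hx2
      exact absurd hx2 hx
    | cons s l ih =>
      intro hl x hx hx2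
      have hs : s ∈ S ∨ s⁻¹ ∈ S := hl s (by simp)
      have hd := q6_gen hs x
      by_cases h : x * s ∈ nbhd S R (C : Set G)
      · exact ⟨x, hx, mem_nbhd_of_dist hSg h hd, Relation.ReflTransGen.refl⟩
      · rw [List.prod_cons, ← mul_assoc] at hx2
        obtain ⟨y, hy1, hy2, hy3⟩ := ih (fun a ha => hl a (by simp [ha])) (x * s) h hx2
        refine ⟨y, hy1, hy2, Relation.ReflTransGen.head ?_ hy3⟩
        refine ⟨?_, hx, h⟩
        rcases hs with hs | hs
        · exact ⟨s, hs, Or.inl rfl⟩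
        · exact ⟨s⁻¹, hs, Or.inr (by rw [mul_inv_cancel_right])⟩
  obtain ⟨l, h1, h2, _⟩ := q6_exists_word hSg (x⁻¹ * 1)
  obtain ⟨y, hy1, ⟨c, hc, hd⟩, hy3⟩ := key l h1 x hx (by
    rw [h2, mul_inv_cancel_left]
    exact self_mem_nbhd C.one_mem R)
  refine ⟨c, hc, c⁻¹ * y, ?_, ?_, ?_⟩
  · rw [wdist_comm hSg] at hd
    have : wlen S (c⁻¹ * y) ≤ 1 + R := hd
    omega
  · rw [w3_nbhd_mul C R (C.inv_mem hc)]
    exact hy1
  · rw [mul_inv_cancel_left]
    exact hy3

/-- a component off the neighbourhood is near `C`, or all of `C` is near it -/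
theorem w3_comp (hS : S.Finite) (hSg : Subgroup.closure S = ⊤) (hone : OneEnded S)
    (C : Subgroup G) (hC : TwoEnded C) (R : ℕ) (b : G) (hb : b ∉ nbhd S R (C : Set G)) :
    ∃ ρ : ℕ, (∀ y, JoinedOff S (nbhd S R (C : Set G)) b y → y ∈ nbhd S ρ (C : Set G)) ∨
      (∀ c ∈ C, ∃ y, JoinedOff S (nbhd S R (C : Set G)) b y ∧ wdist S c y ≤ ρ) := by
  by_cases hnear : ∃ ρ : ℕ, ∀ y, JoinedOff S (nbhd S R (C : Set G)) b y →
      y ∈ nbhd S ρ (C : Set G)
  · obtain ⟨ρ, hρ⟩ := hnear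
    exact ⟨ρ, Or.inl hρ⟩
  -- the component
  set N : Set G := nbhd S R (C : Set G) with hN
  set κ : Set G := {y | JoinedOff S N b y} with hκ
  have hκN : ∀ y ∈ κ, y ∉ N := fun y hy => w3_off N hb hy
  have hCN : ∀ c ∈ C, c ∈ N := fun c hc => self_mem_nbhd hc R
  -- its boundary part is infinite
  have hBd : ¬ (κ ∩ nbhd S (1 + R) (C : Set G)).Finite := by
    intro hfin
    have hbdfin : (q5_bd S κ).Finite := by
      refine (hfin.union (hS.biUnion fun s _ =>
        hfin.image (fun y => y * s⁻¹))).subset ?_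
      rintro g ⟨s, hs, hne⟩
      by_cases hg : g ∈ κ
      · have hgs : g * s ∉ κ := fun h => hne ⟨fun _ => h, fun _ => hg⟩
        left
        refine ⟨hg, ?_⟩
        have : g * s ∈ N := by
          by_contra hgsN
          exact hgs (Relation.ReflTransGen.tail hg ⟨⟨s, hs, Or.inl rfl⟩, hκN g hg, hgsN⟩)
        exact mem_nbhd_of_dist hSg this (wdist_gen hs g)
      · have hgs : g * s ∈ κ := by
          by_contra h
          exact hne ⟨fun h' => absurd h' hg, fun h' => absurd h' h⟩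
        right
        have hgN : g ∈ N := by
          by_contra hgN
          exact hg (Relation.ReflTransGen.tail hgs ⟨⟨s, hs, Or.inr rfl⟩, hκN _ hgs, hgN⟩)
        simp only [Set.mem_iUnion]
        refine ⟨s, hs, g * s, ⟨hgs, ?_⟩, mul_inv_cancel_right g s⟩
        refine mem_nbhd_of_dist hSg hgN ?_
        rw [wdist_comm hSg]
        exact wdist_gen hs g
    rcases q5_crit hone κ hbdfin with h | h
    · apply hnear
      obtain ⟨ρ, hρ⟩ := (h.image fun y => wdist S y 1).bddAbove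
      exact ⟨ρ, fun y hy => ⟨1, C.one_mem, hρ ⟨y, hy, rfl⟩⟩⟩
    · have hCinf := hC.infinite
      have : (C : Set G).Finite := h.subset fun c hc hcκ => hκN c hcκ (hCN c hc)
      exact hCinf.not_finite this
  -- pigeonhole
  have hball : {g : G | wlen S g ≤ 1 + R}.Finite := (properLen_wlen hS hSg).fin _
  obtain ⟨b0, _, hP⟩ : ∃ b0 ∈ {g : G | wlen S g ≤ 1 + R},
      ¬ {y | y ∈ κ ∧ y * b0⁻¹ ∈ C}.Finite := by
    by_contra hall
    push Not at hall
    apply hBd
    refine (hball.biUnion hall).subset ?_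
    rintro y ⟨hy, c, hc, hd⟩
    simp only [Set.mem_iUnion]
    refine ⟨c⁻¹ * y, ?_, hy, ?_⟩
    · rw [wdist_comm hSg] at hd
      exact hd
    · rw [mul_inv_rev, inv_inv, mul_inv_cancel_left]
      exact hc
  obtain ⟨y0, hy0, hy0C⟩ : {y | y ∈ κ ∧ y * b0⁻¹ ∈ C}.Nonempty := by
    rw [Set.nonempty_iff_ne_empty]
    intro h
    exact hP (h ▸ Set.finite_empty)
  -- the stabilizer of the component
  let Q : Subgroup C :=
    { carrier := {c | ∀ y, (c : G) * y ∈ κ ↔ y ∈ κ}
      one_mem' := by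
        intro y
        simp
      mul_mem' := by
        intro a c ha hc y
        have h1 := ha ((c : G) * y)
        have h2 := hc y
        rw [Subgroup.coe_mul, mul_assoc]
        exact h1.trans h2
      inv_mem' := by
        intro a ha y
        have h1 := ha (((a⁻¹ : C) : G) * y)
        rw [Subgroup.coe_inv, mul_inv_cancel_left] at h1
        rw [Subgroup.coe_inv]
        exact h1.symm }
  have hQmem : ∀ y ∈ κ, ∀ hyC : y * y0⁻¹ ∈ C, (⟨y * y0⁻¹, hyC⟩ : C) ∈ Q := by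
    intro y hy hyC z
    show y * y0⁻¹ * z ∈ κ ↔ z ∈ κ
    constructor
    · intro hz
      -- z is joined to y0
      have h1 : JoinedOff S N y (y * y0⁻¹ * z) := (w3_symm N hy).trans hz
      have h2 := w3_smul C R (C.inv_mem hyC) h1
      rw [mul_inv_rev, inv_inv, inv_mul_cancel_right] at h2
      have e : y0 * y⁻¹ * (y * y0⁻¹ * z) = z := by group
      rw [e] at h2
      exact Relation.ReflTransGen.trans hy0 h2
    · intro hz
      have h1 : JoinedOff S N y0 z := (w3_symm N hy0).trans hz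
      have h2 := w3_smul C R hyC h1
      rw [inv_mul_cancel_right] at h2
      exact Relation.ReflTransGen.trans hy h2
  have hQinf : Infinite Q := by
    by_contra hfin
    have hfin' : Finite Q := not_infinite_iff_finite.1 hfin
    apply hP
    refine (Set.finite_range (fun q : Q => ((q : C) : G) * y0)).subset ?_
    rintro y ⟨hy, hyC⟩
    have hyy : y * y0⁻¹ ∈ C := by
      have h1 := C.mul_mem hyC (C.inv_mem hy0C)
      have e : y * b0⁻¹ * (y0 * b0⁻¹)⁻¹ = y * y0⁻¹ := by group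
      rwa [e] at h1
    exact ⟨⟨⟨y * y0⁻¹, hyy⟩, hQmem y hy hyy⟩, inv_mul_cancel_right y y0⟩
  obtain ⟨_, hQfi⟩ := hC.of_infinite Q hQinf
  obtain ⟨F, hF, hcov⟩ := q2_cover Q hQfi
  obtain ⟨ρ, hρ⟩ := (hF.image fun f : C => wdist S ((f : G)⁻¹) b).bddAbove
  refine ⟨ρ, Or.inr fun c hc => ?_⟩
  obtain ⟨f, hf, hfq⟩ := hcov (⟨c, hc⟩⁻¹ : C)
  have hq := Q.inv_mem hfq
  have hbκ : b ∈ κ := Relation.ReflTransGen.refl
  have h1 := (hq b).2 hbκ
  refine ⟨_, h1, ?_⟩
  have e : ((((f⁻¹ * (⟨c, hc⟩ : C)⁻¹)⁻¹ : C) : G)) * b = c * ((f : G) * b) := by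
    simp [mul_assoc]
  rw [e]
  have h2 : wdist S c (c * ((f : G) * b)) = wdist S ((f : G)⁻¹) b := by
    have e2 : c = c * ((f : G) * (f : G)⁻¹) := by simp
    calc wdist S c (c * ((f : G) * b))
        = wdist S (c * ((f : G) * (f : G)⁻¹)) (c * ((f : G) * b)) := by rw [← e2]
      _ = _ := by rw [wdist_mul_left, wdist_mul_left]
  rw [h2]
  exact hρ ⟨f, hf, rfl⟩

theorem exists_full (hS : S.Finite) (hSg : Subgroup.closure S = ⊤) (hone : OneEnded S)
    (C : Subgroup G) (hC : TwoEnded C) (r : ℕ) :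
    ∃ ρ : ℕ, ∀ M : Set G,
      (∀ x ∈ M, ∀ y, y ∉ M → x ∈ nbhd S (r * wdist S x y + r) (C : Set G)) →
      (∃ x ∈ M, x ∉ nbhd S ρ (C : Set G)) →
      ∀ c ∈ C, ∃ x ∈ M, wdist S c x ≤ ρ := by
  have hball : {g : G | wlen S g ≤ 2 * r + 1}.Finite := (properLen_wlen hS hSg).fin _
  have hex : ∀ b : G, ∃ ρ : ℕ, b ∉ nbhd S (2 * r) (C : Set G) →
      ((∀ y, JoinedOff S (nbhd S (2 * r) (C : Set G)) b y → y ∈ nbhd S ρ (C : Set G)) ∨
      (∀ c ∈ C, ∃ y, JoinedOff S (nbhd S (2 * r) (C : Set G)) b y ∧ wdist S c y ≤ ρ)) := by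
    intro b
    by_cases hb : b ∈ nbhd S (2 * r) (C : Set G)
    · exact ⟨0, fun h => absurd hb h⟩
    · obtain ⟨ρ, hρ⟩ := w3_comp hS hSg hone C hC (2 * r) b hb
      exact ⟨ρ, fun _ => hρ⟩
  choose ρ' hρ' using hex
  obtain ⟨m, hm⟩ := (hball.image ρ').bddAbove
  refine ⟨max m (2 * r), ?_⟩
  rintro M hM ⟨x, hxM, hx⟩ c hc
  have hxN : x ∉ nbhd S (2 * r) (C : Set G) := fun h => hx (nbhd_mono (le_max_right _ _) _ h)
  obtain ⟨c0, hc0, b, hb, hbN, hj⟩ := w3_close hSg C (2 * r) hxN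
  have hbm : ρ' b ≤ max m (2 * r) := (hm ⟨b, hb, rfl⟩).trans (le_max_left _ _)
  rcases hρ' b hbN with h | h
  · exfalso
    apply hx
    have h1 := w3_smul C (2 * r) (C.inv_mem hc0) (w3_symm _ hj)
    rw [inv_mul_cancel_left] at h1
    have h2 := nbhd_mono hbm _ (h _ h1)
    rwa [w3_nbhd_mul C _ (C.inv_mem hc0)] at h2
  · obtain ⟨y, hy, hd⟩ := h (c0⁻¹ * c) (C.mul_mem (C.inv_mem hc0) hc)
    refine ⟨c0 * y, ?_, ?_⟩
    · exact w3_stay hSg C r M hM hxM (hj.trans (w3_smul C (2 * r) hc0 hy))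
    · rw [← wdist_mul_left c0⁻¹, inv_mul_cancel_left]
      exact hd.trans hbm

end W3

end Pool.Agent.QIS
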