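import Pool.Agent.H67.W2.Defs
import Pool.Agent.H67.Q.Perm

/-!
# Lines, pieces and half-spaces in a group quasi-isometric to a group that splits
-/

set_option autoImplicit false

namespace Pool.Agent.QIS

open MulAction

/-- the index set of the pieces -/
def Pc (G H : Type) : Type := H × G

instance {G H : Type} [Group H] : MulAction H (Pc G H) where
  smul η Y := (η * Y.1, Y.2)
  one_smul Y := Prod.ext (one_mul Y.1) rfl
  mul_smul η η' Y := Prod.ext (mul_assoc η η' Y.1) rfl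

/-- the piece with given coordinates -/
def pc {G H : Type} (h : H) (g : G) : Pc G H := (h, g)

/-- the data of the second main theorem -/
structure Dt (G H : Type) [Group G] [Group H] where
  S : Set G
  S' : Set H
  hS : S.Finite
  hS' : S'.Finite
  gS : Subgroup.closure S = ⊤
  gS' : Subgroup.closure S' = ⊤
  hone : OneEnded S
  E : Splitting G
  hC : TwoEnded E.edgeGroup
  A : Subgroup G
  hCA : E.edgeGroup ≤ A
  hA : ¬ TwoEnded A
  nc : NotCrossed S E A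
  K : ℕ
  F : G → H
  F' : H → G
  hF : IsQI S S' K F
  hF' : IsQI S' S K F'
  h1 : ∀ y, wdist S' (F (F' y)) y ≤ K
  h2 : ∀ x, wdist S (F' (F x)) x ≤ K

namespace Dt

variable {G H : Type} [Group G] [Group H] (D : Dt G H)

/-- the line of `k` in the coordinates `h` -/
def L (h : H) (k : G) : Set H := {y | ∃ x ∈ ES D.E k, y = h * D.F x}

/-- the piece of `g` in the coordinates `h` -/
def P (h : H) (g : G) : Set H := {y | ∃ x ∈ D.A, y = h * D.F (g * x)}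

/-- the half-space of `k` in the coordinates `h` -/
def Z (h : H) (k : G) : Set H := {y | sd D.E k (D.F' (h⁻¹ * y) • D.E.a)}

theorem mem_L_smul (η h : H) (k : G) (y : H) : η * y ∈ D.L (η * h) k ↔ y ∈ D.L h k := by
  constructor
  · rintro ⟨x, hx, hy⟩
    refine ⟨x, hx, ?_⟩
    rw [mul_assoc] at hy
    exact mul_left_cancel hy
  · rintro ⟨x, hx, rfl⟩
    exact ⟨x, hx, by rw [mul_assoc]⟩

theorem mem_P_smul (η h : H) (g : G) (y : H) : η * y ∈ D.P (η * h) g ↔ y ∈ D.P h g := by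
  constructor
  · rintro ⟨x, hx, hy⟩
    refine ⟨x, hx, ?_⟩
    rw [mul_assoc] at hy
    exact mul_left_cancel hy
  · rintro ⟨x, hx, rfl⟩
    exact ⟨x, hx, by rw [mul_assoc]⟩

theorem mem_Z_smul (η h : H) (k : G) (y : H) : η * y ∈ D.Z (η * h) k ↔ y ∈ D.Z h k := by
  unfold Z
  simp only [Set.mem_ofPred_eq, mul_inv_rev, mul_assoc, inv_mul_cancel_left]

theorem mem_nbhd_smul (η h : H) (k : G) (R : ℕ) (y : H) :
    η * y ∈ nbhd D.S' R (D.L (η * h) k) ↔ y ∈ nbhd D.S' R (D.L h k) := by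
  constructor
  · rintro ⟨l, hl, hd⟩
    refine ⟨η⁻¹ * l, ?_, ?_⟩
    · rw [← D.mem_L_smul η]; simpa using hl
    · rw [← wdist_mul_left η]; simpa using hd
  · rintro ⟨l, hl, hd⟩
    exact ⟨η * l, (D.mem_L_smul η h k l).2 hl, by rw [wdist_mul_left]; exact hd⟩

theorem L_congr (h : H) {k k' : G} (hk : k' ∈ ES D.E k) : D.L h k' = D.L h k := by
  unfold L
  rw [ES_eq_of_mem D.E hk]

theorem Z_congr (h : H) {k k' : G} (hk : k' ∈ ES D.E k) : D.Z h k' = D.Z h k := by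
  ext y
  exact sd_eq_of_mem D.E hk _

theorem P_congr (h : H) {k k' : G} (hk : k' ∈ ES D.E k) : D.P h k' = D.P h k := by
  have hc : k⁻¹ * k' ∈ D.A := D.hCA ((mem_ES_iff D.E k k').1 hk)
  ext y
  constructor
  · rintro ⟨x, hx, rfl⟩
    exact ⟨k⁻¹ * k' * x, D.A.mul_mem hc hx, by rw [← mul_assoc, mul_inv_cancel_left]⟩
  · rintro ⟨x, hx, rfl⟩
    refine ⟨(k⁻¹ * k')⁻¹ * x, D.A.mul_mem (D.A.inv_mem hc) hx, ?_⟩
    congr 2
    group

theorem L_sub_P (h : H) (k : G) : D.L h k ⊆ D.P h k := by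
  rintro y ⟨x, hx, rfl⟩
  refine ⟨k⁻¹ * x, D.hCA ((mem_ES_iff D.E k x).1 hx), ?_⟩
  rw [mul_inv_cancel_left]

theorem self_mem_L (h : H) (k : G) : h * D.F k ∈ D.L h k := ⟨k, mem_ES_self D.E k, rfl⟩

theorem self_mem_P (h : H) (g : G) : h * D.F g ∈ D.P h g := ⟨1, D.A.one_mem, by rw [mul_one]⟩

/-- every point of a line is a base point of it -/
theorem exists_base {h : H} {k : G} {p : H} (hp : p ∈ D.L h k) :
    ∃ k', k' ∈ ES D.E k ∧ p = h * D.F k' := hp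

theorem d_back (h y : H) : wdist D.S' y (h * D.F (D.F' (h⁻¹ * y))) ≤ D.K := by
  rw [← wdist_mul_left h⁻¹, inv_mul_cancel_left, wdist_comm D.gS']
  exact D.h1 _

theorem near_pull {h : H} {k : G} {R : ℕ} {y : H} (hy : y ∈ nbhd D.S' R (D.L h k)) :
    D.F' (h⁻¹ * y) ∈ nbhd D.S (D.K * R + D.K + D.K) (ES D.E k) := by
  obtain ⟨l, ⟨x, hx, rfl⟩, hd⟩ := hy
  refine ⟨x, hx, ?_⟩
  rw [← wdist_mul_left h⁻¹, inv_mul_cancel_left] at hd
  have e1 := D.hF'.1 (h⁻¹ * y) (D.F x)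
  have e2 : D.K * wdist D.S' (h⁻¹ * y) (D.F x) ≤ D.K * R := Nat.mul_le_mul_left _ hd
  have e3 := wdist_triangle D.gS (D.F' (h⁻¹ * y)) (D.F' (D.F x)) x
  have e4 := D.h2 x
  omega

theorem near_push {h : H} {k : G} {R : ℕ} {y : H}
    (hy : D.F' (h⁻¹ * y) ∈ nbhd D.S R (ES D.E k)) :
    y ∈ nbhd D.S' (D.K * R + D.K + D.K) (D.L h k) := by
  obtain ⟨x, hx, hd⟩ := hy
  refine ⟨h * D.F x, ⟨x, hx, rfl⟩, ?_⟩
  have e1 := D.hF.1 (D.F' (h⁻¹ * y)) x
  have e2 : D.K * wdist D.S (D.F' (h⁻¹ * y)) x ≤ D.K * R := Nat.mul_le_mul_left _ hd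
  have e3 := wdist_triangle D.gS' y (h * D.F (D.F' (h⁻¹ * y))) (h * D.F x)
  have e4 := D.d_back h y
  rw [wdist_mul_left] at e3
  omega

theorem near_of_F {h : H} {k x : G} {R : ℕ} (hx : h * D.F x ∈ nbhd D.S' R (D.L h k)) :
    x ∈ nbhd D.S (D.K * R + D.K) (ES D.E k) := by
  obtain ⟨l, ⟨z, hz, rfl⟩, hd⟩ := hx
  refine ⟨z, hz, ?_⟩
  rw [wdist_mul_left] at hd
  refine (D.hF.2.1 x z).trans ?_
  gcongr

/-- points on different sides of a line are near the line -/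
theorem exists_c : ∃ c : ℕ, ∀ (h : H) (k : G) (y y' : H), ¬ (y ∈ D.Z h k ↔ y' ∈ D.Z h k) →
    y ∈ nbhd D.S' (c * wdist D.S' y y' + c) (D.L h k) := by
  obtain ⟨r₀, h₀⟩ := exists_cross D.hS D.gS D.E
  refine ⟨D.K * D.K + D.K * (D.K + r₀) + D.K + D.K, fun h k y y' hn => ?_⟩
  have e1 := h₀ k (D.F' (h⁻¹ * y)) (D.F' (h⁻¹ * y')) hn
  refine nbhd_mono ?_ _ (D.near_push e1)
  have e2 := D.hF'.1 (h⁻¹ * y) (h⁻¹ * y')
  rw [wdist_mul_left] at e2
  have e3 : D.K * (wdist D.S (D.F' (h⁻¹ * y)) (D.F' (h⁻¹ * y')) + r₀) ≤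
      D.K * (D.K * wdist D.S' y y' + D.K + r₀) := Nat.mul_le_mul_left _ (by omega)
  have e4 : (D.K * D.K + D.K * (D.K + r₀) + D.K + D.K) * wdist D.S' y y' =
      D.K * D.K * wdist D.S' y y' + (D.K * (D.K + r₀) + D.K + D.K) * wdist D.S' y y' := by ring
  have e5 : D.K * (D.K * wdist D.S' y y' + D.K + r₀) =
      D.K * D.K * wdist D.S' y y' + D.K * (D.K + r₀) := by ring
  have e6 : 0 ≤ (D.K * (D.K + r₀) + D.K + D.K) * wdist D.S' y y' := Nat.zero_le _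
  have e7 : 0 ≤ D.K * D.K := Nat.zero_le _
  rw [e4]
  omega

/-- the crossing constant -/
noncomputable def c : ℕ := D.exists_c.choose

theorem cross {h : H} {k : G} {y y' : H} (hn : ¬ (y ∈ D.Z h k ↔ y' ∈ D.Z h k)) {d : ℕ}
    (hd : wdist D.S' y y' ≤ d) : y ∈ nbhd D.S' (D.c * d + D.c) (D.L h k) := by
  refine nbhd_mono ?_ _ (D.exists_c.choose_spec h k y y' hn)
  have : D.c * wdist D.S' y y' ≤ D.c * d := Nat.mul_le_mul_left _ hd
  exact Nat.add_le_add_right this _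

/-- each piece is on one side of each line -/
theorem exists_R : ∃ R : ℕ, ∀ (h : H) (k : G) (h' : H) (g : G),
    (∀ y ∈ D.P h' g, y ∉ nbhd D.S' R (D.L h k) → y ∈ D.Z h k) ∨
    (∀ y ∈ D.P h' g, y ∉ nbhd D.S' R (D.L h k) → y ∉ D.Z h k) := by
  obtain ⟨R, hR⟩ := D.nc (D.K * D.K + D.K + D.K + D.K + D.K)
  refine ⟨D.K * R + D.K + D.K, fun h k h' g => ?_⟩
  have hq : IsQI D.S D.S (D.K * D.K + D.K + D.K + D.K + D.K)
      (fun x => k⁻¹ * D.F' (h⁻¹ * (h' * D.F (g * x)))) := by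
    have e1 := D.hF.twist g (h⁻¹ * h')
    have e2 := e1.comp D.hF' D.gS
    have e3 := e2.twist 1 k⁻¹
    have e4 : (fun x => k⁻¹ * (D.F' ∘ fun x => h⁻¹ * h' * D.F (g * x)) (1 * x)) =
        (fun x => k⁻¹ * D.F' (h⁻¹ * (h' * D.F (g * x)))) := by
      funext x
      simp only [Function.comp, one_mul, mul_assoc]
    rw [e4] at e3
    exact e3
  have hnear : ∀ x, h' * D.F (g * x) ∉ nbhd D.S' (D.K * R + D.K + D.K) (D.L h k) →
      k⁻¹ * D.F' (h⁻¹ * (h' * D.F (g * x))) ∉ nbhd D.S R (D.E.edgeGroup : Set G) := by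
    intro x hn hcon
    exact hn (D.near_push ((mem_nbhd_ES_iff D.E R k _).2 hcon))
  refine (hR _ hq).imp (fun hh y hy hn => ?_) (fun hh y hy hn => ?_)
  · obtain ⟨x, hx, rfl⟩ := hy
    exact (sd_iff D.E k _).2 (hh x hx (hnear x hn))
  · obtain ⟨x, hx, rfl⟩ := hy
    exact fun h' => hh x hx (hnear x hn) ((sd_iff D.E k _).1 h')

/-- the constant for the sides of pieces -/
noncomputable def R₀ : ℕ := D.exists_R.choose

theorem one_side (h : H) (k : G) (h' : H) (g : G) :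
    (∀ y ∈ D.P h' g, y ∉ nbhd D.S' D.R₀ (D.L h k) → y ∈ D.Z h k) ∨
    (∀ y ∈ D.P h' g, y ∉ nbhd D.S' D.R₀ (D.L h k) → y ∉ D.Z h k) :=
  D.exists_R.choose_spec h k h' g

/-- the half-space of `(h, k)`, as a set of pieces -/
def SS (h : H) (k : G) : Set (Pc G H) :=
  {Y | ∀ y ∈ D.P Y.1 Y.2, y ∉ nbhd D.S' D.R₀ (D.L h k) → y ∈ D.Z h k}

theorem not_mem_SS {h : H} {k : G} {Y : Pc G H} (hY : Y ∉ D.SS h k) :
    ∀ y ∈ D.P Y.1 Y.2, y ∉ nbhd D.S' D.R₀ (D.L h k) → y ∉ D.Z h k :=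
  (D.one_side h k Y.1 Y.2).resolve_left hY

/-- a far point of a piece decides the side -/
theorem mem_SS_iff {h : H} {k : G} {Y : Pc G H} {y : H} (hy : y ∈ D.P Y.1 Y.2)
    (hn : y ∉ nbhd D.S' D.R₀ (D.L h k)) : Y ∈ D.SS h k ↔ y ∈ D.Z h k := by
  constructor
  · exact fun hY => hY y hy hn
  · intro hz
    by_contra hY
    exact D.not_mem_SS hY y hy hn hz

theorem tr_SS (η h : H) (k : G) : tr η (D.SS h k) = D.SS (η * h) k := by
  ext Y
  have hP : ∀ y : H, y ∈ D.P (η⁻¹ • Y).1 (η⁻¹ • Y).2 ↔ η * y ∈ D.P Y.1 Y.2 := by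
    intro y
    have := D.mem_P_smul η (η⁻¹ * Y.1) Y.2 y
    rw [mul_inv_cancel_left] at this
    exact this.symm
  constructor
  · intro hY y hy hn
    have h1 : η⁻¹ * y ∈ D.P (η⁻¹ • Y).1 (η⁻¹ • Y).2 := by rw [hP, mul_inv_cancel_left]; exact hy
    have h2 : η⁻¹ * y ∉ nbhd D.S' D.R₀ (D.L h k) := by
      rw [← D.mem_nbhd_smul η, mul_inv_cancel_left]; exact hn
    have h3 := hY (η⁻¹ * y) h1 h2
    rwa [← D.mem_Z_smul η, mul_inv_cancel_left] at h3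
  · intro hY y hy hn
    have h1 := hY (η * y) ((hP y).1 hy) (by rw [D.mem_nbhd_smul]; exact hn)
    rwa [D.mem_Z_smul] at h1

end Dt

end Pool.Agent.QIS
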