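import Pool.Agent.H67.Q.Lines

set_option autoImplicit false

/-! A subgroup which lies near the union of two coarse lines is two-ended (ultrafilter limit of
translates of one of the lines). -/

namespace Pool.Agent.QIS

section W4
variable {H : Type} [Group H] {len : H → ℕ}

/-- limit of translates of the first line, when the part of `K` near the second line is sparse -/
theorem w4_limit (hlen : ProperLen len) (K : Subgroup H) (γ₁ γ₂ : ℤ → H)
    (h₁ : CoarseLine len γ₁) (R : ℕ)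
    (hK : ∀ k ∈ K, (∃ n, len (k⁻¹ * γ₁ n) ≤ R) ∨ ∃ n, len (k⁻¹ * γ₂ n) ≤ R)
    (hsp : ∀ R' : ℕ, ∃ k ∈ K, ∀ k' ∈ K, (∃ n, len (k'⁻¹ * γ₂ n) ≤ R) → R' < len (k⁻¹ * k')) :
    ∃ δ : ℤ → H, CoarseLine len δ ∧ ∀ k ∈ K, ∃ n, len (k⁻¹ * δ n) ≤ R := by
  classical
  obtain ⟨⟨D, hD⟩, hprop⟩ := h₁
  choose N hN using hprop
  choose κ hκK hκ using hsp
  -- points of `K` in the ball of radius `n` around `κ n` are near the first line
  have hnear : ∀ (n : ℕ) (k : H), k ∈ K → len k ≤ n → ∃ j, len ((κ n * k)⁻¹ * γ₁ j) ≤ R := by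
    intro n k hk hkn
    rcases hK (κ n * k) (K.mul_mem (hκK n) hk) with h | h
    · exact h
    · exfalso
      have h1 := hκ n (κ n * k) (K.mul_mem (hκK n) hk) h
      rw [inv_mul_cancel_left] at h1
      omega
  have hm : ∀ n : ℕ, ∃ m : ℤ, len ((κ n)⁻¹ * γ₁ m) ≤ R := by
    intro n
    obtain ⟨j, hj⟩ := hnear n 1 K.one_mem (by rw [hlen.one]; omega)
    exact ⟨j, by rwa [mul_one] at hj⟩
  choose m hm using hm
  set d : ℕ → ℤ → H := fun n j => (κ n)⁻¹ * γ₁ (j + m n) with hd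
  have hdd : ∀ (n : ℕ) (i j : ℤ), (d n i)⁻¹ * d n j = (γ₁ (i + m n))⁻¹ * γ₁ (j + m n) := by
    intro n i j
    simp only [hd]
    group
  have hd0 : ∀ n, len (d n 0) ≤ R := by
    intro n
    simp only [hd, zero_add]
    exact hm n
  have hdN : ∀ (n : ℕ) (r : ℕ) (i j : ℤ), len ((d n i)⁻¹ * d n j) ≤ r → |i - j| ≤ (N r : ℤ) := by
    intro n r i j h
    rw [hdd] at h
    have h1 := hN r _ _ h
    rwa [add_sub_add_right_eq_sub] at h1
  have hdlen : ∀ (n : ℕ) (j : ℤ), len (d n j) ≤ R + D * j.natAbs := by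
    intro n j
    have h1 := q2_tri hlen 1 (d n 0) (d n j)
    rw [inv_one, one_mul, one_mul, hdd] at h1
    have h2 := q2_gamma hlen γ₁ D hD (0 + m n) (j + m n)
    have h3 : |0 + m n - (j + m n)| = (j.natAbs : ℤ) := by
      rw [add_sub_add_right_eq_sub, zero_sub, abs_neg, Int.abs_eq_natAbs]
    rw [h3] at h2
    have h4 : len ((γ₁ (0 + m n))⁻¹ * γ₁ (j + m n)) ≤ D * j.natAbs := by exact_mod_cast h2
    have h5 := hd0 n
    omega
  -- the limit
  let U : Ultrafilter ℕ := Filter.hyperfilter ℕ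
  have hlim : ∀ j : ℤ, ∃ g : H, ∀ᶠ n in (U : Filter ℕ), d n j = g := by
    intro j
    have h1 : ∀ᶠ n in (U : Filter ℕ), ∃ g ∈ {g | len g ≤ R + D * j.natAbs}, d n j = g :=
      Filter.Eventually.of_forall fun n => ⟨d n j, hdlen n j, rfl⟩
    rw [Ultrafilter.eventually_exists_mem_iff (hlen.fin _)] at h1
    obtain ⟨g, -, hg⟩ := h1
    exact ⟨g, hg⟩
  choose δ hδ using hlim
  refine ⟨δ, ⟨⟨D, fun i => ?_⟩, fun r => ⟨N r, fun i j h => ?_⟩⟩, fun k hk => ?_⟩
  · obtain ⟨n, hn1, hn2⟩ := ((hδ i).and (hδ (i + 1))).exists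
    rw [← hn1, ← hn2, hdd]
    have h1 := hD (i + m n)
    have e : i + m n + 1 = i + 1 + m n := by ring
    rwa [e] at h1
  · obtain ⟨n, hn1, hn2⟩ := ((hδ i).and (hδ j)).exists
    rw [← hn1, ← hn2] at h
    exact hdN n r i j h
  · have hfin : {j : ℤ | |j| ≤ (N (2 * R + len k) : ℤ)}.Finite := by
      refine (Set.finite_Icc (-(N (2 * R + len k) : ℤ)) (N (2 * R + len k))).subset ?_
      intro j hj
      rw [Set.mem_ofPred_eq, abs_le] at hj
      exact hj
    have h1 : ∀ᶠ n in (U : Filter ℕ), ∃ j ∈ {j : ℤ | |j| ≤ (N (2 * R + len k) : ℤ)},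
        len (k⁻¹ * d n j) ≤ R := by
      have h2 : ∀ᶠ n in (U : Filter ℕ), len k ≤ n :=
        Nat.hyperfilter_le_atTop (Filter.eventually_ge_atTop (len k))
      filter_upwards [h2] with n hn
      obtain ⟨j, hj⟩ := hnear n k hk hn
      have e : k⁻¹ * d n (j - m n) = (κ n * k)⁻¹ * γ₁ j := by
        simp only [hd, sub_add_cancel]
        group
      have h3 : len (k⁻¹ * d n (j - m n)) ≤ R := by rwa [e]
      refine ⟨j - m n, ?_, h3⟩
      have h4 : |0 - (j - m n)| ≤ (N (2 * R + len k) : ℤ) := by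
        refine hdN n _ _ _ ?_
        have h5 := q2_tri hlen (d n 0) 1 (d n (j - m n))
        have h6 := q2_tri hlen 1 k (d n (j - m n))
        rw [mul_one, hlen.inv] at h5
        rw [inv_one, one_mul] at h6
        rw [inv_one, one_mul] at h5
        have h7 := hd0 n
        rw [one_mul] at h6
        omega
      rwa [zero_sub, abs_neg] at h4
    rw [Ultrafilter.eventually_exists_mem_iff hfin] at h1
    obtain ⟨j, -, hj⟩ := h1
    obtain ⟨n, hn1, hn2⟩ := (hj.and (hδ j)).exists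
    refine ⟨j, ?_⟩
    rwa [hn2] at hn1

/-- a subgroup that lies near the union of two coarse lines and contains an element of infinite
order -/
theorem twoEnded_of_near2 (hlen : ProperLen len) (K : Subgroup H) (z : H) (hz : z ∈ K)
    (hinf : ∀ n : ℕ, 0 < n → z ^ n ≠ 1) (γ₁ γ₂ : ℤ → H) (h₁ : CoarseLine len γ₁)
    (h₂ : CoarseLine len γ₂) (R : ℕ)
    (hK : ∀ k ∈ K, (∃ n, len (k⁻¹ * γ₁ n) ≤ R) ∨ ∃ n, len (k⁻¹ * γ₂ n) ≤ R) : TwoEnded K := by
  by_cases hc : ∃ R' : ℕ, ∀ k ∈ K, ∃ k' ∈ K, (∃ n, len (k'⁻¹ * γ₂ n) ≤ R) ∧ len (k⁻¹ * k') ≤ R'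
  · obtain ⟨R', hR'⟩ := hc
    refine twoEnded_of_near hlen K z hz hinf γ₂ h₂ (R' + R) fun k hk => ?_
    obtain ⟨k', -, ⟨n, hn⟩, h⟩ := hR' k hk
    refine ⟨n, ?_⟩
    have := q2_tri hlen k k' (γ₂ n)
    omega
  · push Not at hc
    obtain ⟨δ, hδ, hKδ⟩ := w4_limit hlen K γ₁ γ₂ h₁ R hK fun R' => by
      obtain ⟨k, hk, h⟩ := hc R'
      exact ⟨k, hk, fun k' hk' hn => h k' hk' hn⟩
    exact twoEnded_of_near hlen K z hz hinf δ hδ R hKδ

end W4

end Pool.Agent.QIS
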