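import Pool.Agent.H67.W2.G1
import Pool.Agent.H67.W2.Full
import Pool.Agent.H67.W2.Near2
import Pool.Agent.H67.W2.Chain
import Pool.Agent.H67.Q.Perm2

/-!
# Deep points, full boundaries, corners
-/

set_option autoImplicit false

namespace Pool.Agent.QIS

open MulAction

namespace Dt

variable {G H : Type} [Group G] [Group H] (D : Dt G H)

theorem exists_e : ∃ e : ℕ, ∀ (h : H) (k x : G), x ∉ nbhd D.S e (ES D.E k) →
    (h * D.F x ∈ D.Z h k ↔ sd D.E k (x • D.E.a)) := by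
  obtain ⟨r₀, h₀⟩ := exists_cross D.hS D.gS D.E
  refine ⟨D.K + r₀, fun h k x hx => ?_⟩
  have e1 : h * D.F x ∈ D.Z h k ↔ sd D.E k (D.F' (D.F x) • D.E.a) := by
    unfold Z
    simp only [Set.mem_ofPred_eq, inv_mul_cancel_left]
  rw [e1]
  by_contra hn
  refine hx (nbhd_mono ?_ _ (h₀ k x (D.F' (D.F x)) (fun h' => hn h'.symm)))
  have := D.h2 x
  rw [wdist_comm D.gS] at this
  omega

/-- near each point of a line there are points far from the line on both sides -/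
theorem exists_r (d : ℕ) : ∃ r : ℕ, ∀ (h : H) (k : G), ∀ p ∈ D.L h k,
    (∃ z, z ∈ D.Z h k ∧ wdist D.S' p z ≤ r ∧ z ∉ nbhd D.S' d (D.L h k)) ∧
    (∃ z, z ∉ D.Z h k ∧ wdist D.S' p z ≤ r ∧ z ∉ nbhd D.S' d (D.L h k)) := by
  obtain ⟨e, he⟩ := D.exists_e
  obtain ⟨⟨t₁, ht₁, hn₁⟩, ⟨t₂, ht₂, hn₂⟩⟩ := exists_deep D.hS D.gS D.E (D.K * d + D.K + e)
  have key : ∀ t : G, t ∉ nbhd D.S (D.K * d + D.K + e) (ES D.E 1) → ∀ (h : H) (k k' : G),
      k' ∈ ES D.E k → (h * D.F (k' * t) ∈ D.Z h k ↔ sd D.E 1 (t • D.E.a)) ∧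
      wdist D.S' (h * D.F k') (h * D.F (k' * t)) ≤ D.K * wlen D.S t + D.K ∧
      h * D.F (k' * t) ∉ nbhd D.S' d (D.L h k) := by
    intro t ht h k k' hk
    have hfar : ∀ R, R ≤ D.K * d + D.K + e → k' * t ∉ nbhd D.S R (ES D.E k) := by
      intro R hR hcon
      rw [← ES_eq_of_mem D.E hk] at hcon
      have h1 := (nbhd_smul (S := D.S) k' t R D.E 1).1 (by rwa [mul_one])
      exact ht (nbhd_mono hR _ h1)
    refine ⟨?_, ?_, ?_⟩
    · rw [he h k (k' * t) (hfar e (by omega)), ← sd_eq_of_mem D.E hk, mul_smul]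
      have := sd_smul D.E k' 1 (t • D.E.a)
      rwa [mul_one] at this
    · rw [wdist_mul_left]
      refine (D.hF.1 _ _).trans (le_of_eq ?_)
      unfold wdist
      rw [inv_mul_cancel_left]
    · intro hcon
      exact hfar (D.K * d + D.K) (by omega) (D.near_of_F hcon)
  refine ⟨max (D.K * wlen D.S t₁ + D.K) (D.K * wlen D.S t₂ + D.K), fun h k p hp => ?_⟩
  obtain ⟨k', hk', rfl⟩ := hp
  obtain ⟨a1, a2, a3⟩ := key t₁ hn₁ h k k' hk'
  obtain ⟨b1, b2, b3⟩ := key t₂ hn₂ h k k' hk'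
  exact ⟨⟨_, a1.2 ht₁, a2.trans (le_max_left _ _), a3⟩,
    ⟨_, fun h' => ht₂ (b1.1 h'), b2.trans (le_max_right _ _), b3⟩⟩

/-- the boundary of `M` is near `L` -/
def BD (r : ℕ) (M L : Set H) : Prop :=
  ∀ y ∈ M, ∀ y', y' ∉ M → y ∈ nbhd D.S' (r * wdist D.S' y y' + r) L

theorem exists_ρ (r : ℕ) : ∃ ρ : ℕ, ∀ (h : H) (k : G) (M : Set H), D.BD r M (D.L h k) →
    (∃ y ∈ M, y ∉ nbhd D.S' ρ (D.L h k)) → ∀ p ∈ D.L h k, ∃ y ∈ M, wdist D.S' p y ≤ ρ := by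
  obtain ⟨ρ₁, hρ₁⟩ := exists_full D.hS D.gS D.hone D.E.edgeGroup D.hC
    (D.K * r * D.K + (D.K * (r * D.K + r) + D.K))
  refine ⟨(r * D.K + r) + (D.K * ρ₁ + D.K + D.K), fun h k M hM hdeep p hp => ?_⟩
  obtain ⟨k', hk', rfl⟩ := hp
  obtain ⟨y, hyM, hy⟩ := hdeep
  have h1 := hρ₁ {x | h * D.F (k * x) ∈ M} ?_ ?_ (k⁻¹ * k') ((mem_ES_iff D.E k k').1 hk')
  · obtain ⟨x, hx, hd⟩ := h1
    refine ⟨h * D.F (k * x), hx, ?_⟩
    rw [wdist_mul_left]
    have e1 := D.hF.1 k' (k * x)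
    have e2 : wdist D.S k' (k * x) = wdist D.S (k⁻¹ * k') x := by
      rw [← wdist_mul_left k (k⁻¹ * k'), mul_inv_cancel_left]
    rw [e2] at e1
    have e3 : D.K * wdist D.S (k⁻¹ * k') x ≤ D.K * ρ₁ := Nat.mul_le_mul_left _ hd
    omega
  · intro x hx x' hx'
    have e1 := hM _ hx _ hx'
    have e2 := D.near_of_F e1
    rw [mem_nbhd_ES_iff, inv_mul_cancel_left] at e2
    refine nbhd_mono ?_ _ e2
    have e3 : wdist D.S' (h * D.F (k * x)) (h * D.F (k * x')) ≤ D.K * wdist D.S x x' + D.K := by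
      rw [wdist_mul_left]
      have := D.hF.1 (k * x) (k * x')
      rwa [wdist_mul_left] at this
    calc D.K * (r * wdist D.S' (h * D.F (k * x)) (h * D.F (k * x')) + r) + D.K
        ≤ D.K * (r * (D.K * wdist D.S x x' + D.K) + r) + D.K := by gcongr
      _ = D.K * r * D.K * wdist D.S x x' + (D.K * (r * D.K + r) + D.K) := by ring
      _ ≤ (D.K * r * D.K + (D.K * (r * D.K + r) + D.K)) * wdist D.S x x' +
          (D.K * r * D.K + (D.K * (r * D.K + r) + D.K)) := by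
          have e4 : 0 ≤ (D.K * (r * D.K + r) + D.K) * wdist D.S x x' := Nat.zero_le _
          have e5 : 0 ≤ D.K * r * D.K := Nat.zero_le _
          rw [add_mul]
          omega
  · refine ⟨k⁻¹ * D.F' (h⁻¹ * y), ?_, ?_⟩
    · show h * D.F (k * (k⁻¹ * D.F' (h⁻¹ * y))) ∈ M
      rw [mul_inv_cancel_left]
      by_contra hn
      refine hy (nbhd_mono ?_ _ (hM y hyM _ hn))
      have e1 := D.d_back h y
      have e2 : r * wdist D.S' y (h * D.F (D.F' (h⁻¹ * y))) ≤ r * D.K := Nat.mul_le_mul_left _ e1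
      omega
    · intro hcon
      rw [← mem_nbhd_ES_iff] at hcon
      exact hy (nbhd_mono (by omega) _ (D.near_push hcon))

/-- a piece is not near the union of two lines -/
theorem exists_far2 (ρ : ℕ) (h₁ : H) (k₁ : G) (h₂ : H) (k₂ : G) (h : H) (g : G) :
    ∃ y ∈ D.P h g, y ∉ nbhd D.S' ρ (D.L h₁ k₁) ∧ y ∉ nbhd D.S' ρ (D.L h₂ k₂) := by
  by_contra hcon
  push Not at hcon
  obtain ⟨c, hcC, hc, Dc, hDc⟩ := line_of_twoEnded (S := D.S) D.hC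
  have hq : ∀ h' : H, IsQI D.S D.S (D.K * D.K + D.K + D.K + D.K + D.K)
      (fun x => g⁻¹ * D.F' (h⁻¹ * (h' * D.F x))) := by
    intro h'
    have e1 := D.hF.twist 1 (h⁻¹ * h')
    have e2 := e1.comp D.hF' D.gS
    have e3 := e2.twist 1 g⁻¹
    have e4 : (fun x => g⁻¹ * (D.F' ∘ fun x => h⁻¹ * h' * D.F (1 * x)) (1 * x)) =
        (fun x => g⁻¹ * D.F' (h⁻¹ * (h' * D.F x))) := by
      funext x
      simp only [Function.comp, one_mul, mul_assoc]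
    rw [e4] at e3
    exact e3
  have key : ∀ (h' : H) (k' : G), ∀ κ ∈ D.A, h * D.F (g * κ) ∈ nbhd D.S' ρ (D.L h' k') →
      ∃ n : ℤ, wdist D.S κ (g⁻¹ * D.F' (h⁻¹ * (h' * D.F (k' * c ^ n)))) ≤
        D.K + (D.K * (ρ + (D.K * Dc + D.K)) + D.K) := by
    intro h' k' κ _ hn
    obtain ⟨l, ⟨x, hx, rfl⟩, hd⟩ := hn
    obtain ⟨n, hn⟩ := hDc _ ((mem_ES_iff D.E k' x).1 hx)
    refine ⟨n, ?_⟩
    have e1 : wdist D.S x (k' * c ^ n) ≤ Dc := by
      have := wdist_mul_left (S := D.S) k' (k'⁻¹ * x) (c ^ n)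
      rw [mul_inv_cancel_left] at this
      rw [this]; exact hn
    have e2 : wdist D.S' (h' * D.F x) (h' * D.F (k' * c ^ n)) ≤ D.K * Dc + D.K := by
      rw [wdist_mul_left]
      refine (D.hF.1 _ _).trans ?_
      gcongr
    have e3 : wdist D.S' (h * D.F (g * κ)) (h' * D.F (k' * c ^ n)) ≤ ρ + (D.K * Dc + D.K) :=
      (wdist_triangle D.gS' _ _ _).trans (add_le_add hd e2)
    have e4 : wdist D.S (D.F' (D.F (g * κ))) (D.F' (h⁻¹ * (h' * D.F (k' * c ^ n)))) ≤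
        D.K * (ρ + (D.K * Dc + D.K)) + D.K := by
      refine (D.hF'.1 _ _).trans ?_
      have e5 : wdist D.S' (D.F (g * κ)) (h⁻¹ * (h' * D.F (k' * c ^ n))) ≤
          ρ + (D.K * Dc + D.K) := by
        rw [← wdist_mul_left h, mul_inv_cancel_left]
        exact e3
      gcongr
    have e6 : wdist D.S κ (g⁻¹ * D.F' (h⁻¹ * (h' * D.F (k' * c ^ n)))) =
        wdist D.S (g * κ) (D.F' (h⁻¹ * (h' * D.F (k' * c ^ n)))) := by
      rw [← wdist_mul_left g κ, mul_inv_cancel_left]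
    rw [e6]
    have e7 := wdist_triangle D.gS (g * κ) (D.F' (D.F (g * κ)))
      (D.F' (h⁻¹ * (h' * D.F (k' * c ^ n))))
    have e8 := D.h2 (g * κ)
    rw [wdist_comm D.gS] at e8
    omega
  refine D.hA (twoEnded_of_near2 (properLen_wlen D.hS D.gS) D.A c (D.hCA hcC) hc _ _
    (coarseLine_of_qi D.hS D.gS (hq h₁) k₁ c hc) (coarseLine_of_qi D.hS D.gS (hq h₂) k₂ c hc)
    (D.K + (D.K * (ρ + (D.K * Dc + D.K)) + D.K)) fun κ hκ => ?_)
  by_cases hn : h * D.F (g * κ) ∈ nbhd D.S' ρ (D.L h₁ k₁)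
  · exact Or.inl (key h₁ k₁ κ hκ hn)
  · exact Or.inr (key h₂ k₂ κ hκ (hcon _ ⟨κ, hκ, rfl⟩ hn))

/-- `U` is one of the two sides of the line `(h, k)` -/
def IsSide (h : H) (k : G) (U : Set H) : Prop := U = D.Z h k ∨ U = (D.Z h k)ᶜ

theorem IsSide.cross {h : H} {k : G} {U : Set H} (hU : D.IsSide h k U) {y y' : H}
    (hn : ¬ (y ∈ U ↔ y' ∈ U)) {d : ℕ} (hd : wdist D.S' y y' ≤ d) :
    y ∈ nbhd D.S' (D.c * d + D.c) (D.L h k) := by
  refine D.cross (fun h' => hn ?_) hd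
  rcases hU with rfl | rfl
  · exact h'
  · simp only [Set.mem_compl_iff, not_iff_not]
    exact h'

theorem corner : ∃ r : ℕ, ∀ (h : H) (k : G) (h' : H) (k' : G) (U U' : Set H),
    D.IsSide h k U → D.IsSide h' k' U' →
    (∀ y ∈ D.P h' k', y ∉ nbhd D.S' D.R₀ (D.L h k) → y ∈ U) →
    D.BD r (Uᶜ ∩ U'ᶜ) (D.L h k) := by
  refine ⟨D.c * D.c + D.c + D.R₀, fun h k h' k' U U' hU hU' hP y hy y' hy' => ?_⟩
  have e0 : (D.c * D.c + D.c + D.R₀) * wdist D.S' y y' = D.c * D.c * wdist D.S' y y' +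
      D.c * wdist D.S' y y' + D.R₀ * wdist D.S' y y' := by ring
  by_cases hy1 : y' ∈ U
  · refine nbhd_mono ?_ _ (hU.cross D (y := y) (y' := y') (fun h' => hy.1 (h'.2 hy1)) le_rfl)
    rw [e0]
    have := Nat.zero_le (D.c * D.c * wdist D.S' y y')
    have := Nat.zero_le (D.R₀ * wdist D.S' y y')
    omega
  · have hy2 : y' ∈ U' := by
      by_contra hn
      exact hy' ⟨hy1, hn⟩
    obtain ⟨l, hl, hd⟩ := hU'.cross D (y := y) (y' := y') (fun h' => hy.2 (h'.2 hy2)) le_rfl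
    by_cases hln : l ∈ nbhd D.S' D.R₀ (D.L h k)
    · refine nbhd_mono ?_ _ (mem_nbhd_of_dist D.gS' hln hd)
      rw [e0]
      have := Nat.zero_le (D.c * D.c * wdist D.S' y y')
      have := Nat.zero_le (D.R₀ * wdist D.S' y y')
      have := Nat.zero_le (D.c * D.c)
      omega
    · have hlU := hP l (D.L_sub_P h' k' hl) hln
      refine nbhd_mono ?_ _ (hU.cross D (y := y) (y' := l) (fun h' => hy.1 (h'.2 hlU)) hd)
      rw [e0]
      have e1 : D.c * (D.c * wdist D.S' y y' + D.c) + D.c =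
        D.c * D.c * wdist D.S' y y' + D.c * D.c + D.c := by ring
      rw [e1]
      have := Nat.zero_le (D.c * wdist D.S' y y')
      have := Nat.zero_le (D.R₀ * wdist D.S' y y')
      omega

/-- lines with a deep corner away from both pieces are close -/
theorem near_of_corner : ∃ ρ R : ℕ, ∀ (h : H) (k : G) (h' : H) (k' : G) (U U' : Set H),
    D.IsSide h k U → D.IsSide h' k' U' →
    (∀ y ∈ D.P h' k', y ∉ nbhd D.S' D.R₀ (D.L h k) → y ∈ U) →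
    (∀ y ∈ D.P h k, y ∉ nbhd D.S' D.R₀ (D.L h' k') → y ∈ U') →
    (∃ z, z ∉ U ∧ z ∉ U' ∧ z ∉ nbhd D.S' ρ (D.L h k)) →
    D.L h k ⊆ nbhd D.S' R (D.L h' k') := by
  obtain ⟨r, hr⟩ := D.corner
  obtain ⟨ρ, hρ⟩ := D.exists_ρ r
  refine ⟨ρ, D.R₀ + (D.c * ρ + D.c), fun h k h' k' U U' hU hU' hP' hP hz p hp => ?_⟩
  obtain ⟨z, hz1, hz2, hz3⟩ := hz
  obtain ⟨m, hm, hd⟩ := hρ h k _ (hr h k h' k' U U' hU hU' hP') ⟨z, ⟨hz1, hz2⟩, hz3⟩ p hp
  by_cases hn : p ∈ nbhd D.S' D.R₀ (D.L h' k')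
  · exact nbhd_mono (by omega) _ hn
  · have hpU := hP p (D.L_sub_P h k hp) hn
    refine nbhd_mono (by omega) _ (hU'.cross D (y := p) (y' := m) (fun h' => hm.2 (h'.1 hpU)) hd)

theorem exists_side (h : H) (k : G) (h' : H) (g : G) : ∃ U, D.IsSide h k U ∧
    (∀ y ∈ D.P h' g, y ∉ nbhd D.S' D.R₀ (D.L h k) → y ∈ U) := by
  rcases D.one_side h k h' g with h1 | h1
  · exact ⟨_, Or.inl rfl, h1⟩
  · exact ⟨_, Or.inr rfl, h1⟩

/-- half-spaces that are not nested have close lines -/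
theorem exists_R₂ : ∃ R : ℕ, ∀ (h : H) (k : G) (h' : H) (k' : G),
    ¬ Nested (D.SS h k) (D.SS h' k') → D.L h k ⊆ nbhd D.S' R (D.L h' k') := by
  obtain ⟨ρ, R, hR⟩ := D.near_of_corner
  refine ⟨R, fun h k h' k' hn => ?_⟩
  obtain ⟨U, hU, hPU⟩ := D.exists_side h k h' k'
  obtain ⟨U', hU', hPU'⟩ := D.exists_side h' k' h k
  refine hR h k h' k' U U' hU hU' hPU hPU' ?_
  -- a piece in the corner
  obtain ⟨Y, hY, hY'⟩ : ∃ Y : Pc G H,
      (∀ y ∈ D.P Y.1 Y.2, y ∉ nbhd D.S' D.R₀ (D.L h k) → y ∉ U) ∧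
      (∀ y ∈ D.P Y.1 Y.2, y ∉ nbhd D.S' D.R₀ (D.L h' k') → y ∉ U') := by
    unfold Nested at hn
    push Not at hn
    obtain ⟨n1, n2, n3, n4⟩ := hn
    rw [Set.not_subset] at n1 n2 n3 n4
    rcases hU with rfl | rfl
    · rcases hU' with rfl | rfl
      · obtain ⟨Y, h1, h2⟩ := n3
        exact ⟨Y, D.not_mem_SS h1, D.not_mem_SS h2⟩
      · obtain ⟨Y, h1, h2⟩ := n4
        rw [Set.mem_compl_iff, not_not] at h2
        exact ⟨Y, D.not_mem_SS h1, fun y hy hn h3 => h3 (h2 y hy hn)⟩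
    · rcases hU' with rfl | rfl
      · obtain ⟨Y, h1, h2⟩ := n1
        exact ⟨Y, fun y hy hn h3 => h3 (h1 y hy hn), D.not_mem_SS h2⟩
      · obtain ⟨Y, h1, h2⟩ := n2
        rw [Set.mem_compl_iff, not_not] at h2
        exact ⟨Y, fun y hy hn h3 => h3 (h1 y hy hn), fun y hy hn h3 => h3 (h2 y hy hn)⟩
  obtain ⟨y, hy, hn1, hn2⟩ := D.exists_far2 (ρ + D.R₀) h k h' k' Y.1 Y.2
  exact ⟨y, hY y hy (fun h3 => hn1 (nbhd_mono (by omega) _ h3)),
    hY' y hy (fun h3 => hn2 (nbhd_mono (by omega) _ h3)),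
    fun h3 => hn1 (nbhd_mono (by omega) _ h3)⟩

end Dt

end Pool.Agent.QIS
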