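import Pool.Agent.H67.W2.G2

/-!
# Local finiteness of the family of half-spaces
-/

set_option autoImplicit false

namespace Pool.Agent.QIS

open MulAction

namespace Dt

variable {G H : Type} [Group G] [Group H] (D : Dt G H)

/-- the ball about the identity -/
def Bl (n : ℕ) : Set H := {y | wdist D.S' 1 y ≤ n}

theorem Bl_finite (n : ℕ) : (D.Bl n).Finite := ball_finite D.hS' D.gS' 1 n

/-- near each point of a line there is a point of its piece far from the line -/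
theorem exists_thick : ∃ s : ℕ, ∀ (h : H) (k : G),
    ∃ y ∈ D.P h k, wdist D.S' (h * D.F k) y ≤ s ∧ y ∉ nbhd D.S' D.R₀ (D.L h k) := by
  -- a point of A far from the edge group
  obtain ⟨α, hα, hαn⟩ : ∃ α ∈ D.A, α ∉ nbhd D.S (D.K * D.R₀ + D.K) (D.E.edgeGroup : Set G) := by
    by_contra hcon
    push Not at hcon
    obtain ⟨c, hcC, hc, Dc, hDc⟩ := line_of_twoEnded (S := D.S) D.hC
    have hq : IsQI D.S D.S 1 (fun x : G => x) := IsQI.id'
    have hl := coarseLine_of_qi D.hS D.gS hq 1 c hc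
    refine D.hA (twoEnded_of_near2 (properLen_wlen D.hS D.gS) D.A c (D.hCA hcC) hc _ _ hl hl
      (D.K * D.R₀ + D.K + Dc) fun κ hκ => Or.inl ?_)
    obtain ⟨l, hl, hd⟩ := hcon κ hκ
    obtain ⟨n, hn⟩ := hDc l hl
    refine ⟨n, ?_⟩
    have := wdist_triangle D.gS κ l (c ^ n)
    show wdist D.S κ (1 * c ^ n) ≤ _
    rw [one_mul]
    omega
  refine ⟨D.K * wlen D.S α + D.K, fun h k => ⟨h * D.F (k * α), ⟨α, hα, rfl⟩, ?_, ?_⟩⟩
  · rw [wdist_mul_left]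
    refine (D.hF.1 _ _).trans (le_of_eq ?_)
    unfold wdist
    rw [inv_mul_cancel_left]
  · intro hcon
    have := D.near_of_F hcon
    rw [mem_nbhd_ES_iff, inv_mul_cancel_left] at this
    exact hαn this

/-- the own side of a piece -/
theorem exists_own (h : H) (k : G) : ∃ U, D.IsSide h k U ∧
    (∀ y ∈ D.P h k, y ∉ nbhd D.S' D.R₀ (D.L h k) → y ∈ U) ∧
    (((h, k) : Pc G H) ∈ D.SS h k → U = D.Z h k) ∧
    (((h, k) : Pc G H) ∉ D.SS h k → U = (D.Z h k)ᶜ) := by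
  by_cases hm : ((h, k) : Pc G H) ∈ D.SS h k
  · exact ⟨_, Or.inl rfl, hm, fun _ => rfl, fun h' => absurd hm h'⟩
  · exact ⟨_, Or.inr rfl, D.not_mem_SS hm, fun h' => absurd h' hm, fun _ => rfl⟩

/-- the trace on a large ball determines the half-space -/
theorem trace_det (R : ℕ) : ∃ n : ℕ, ∀ (h : H) (k : G) (h' : H) (k' : G),
    wdist D.S' 1 (h * D.F k) ≤ R → wdist D.S' 1 (h' * D.F k') ≤ R →
    (∀ y ∈ D.Bl n, y ∈ D.Z h k ↔ y ∈ D.Z h' k') →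
    (∀ y ∈ D.Bl n, y ∈ D.P h k ↔ y ∈ D.P h' k') →
    (((h, k) : Pc G H) ∈ D.SS h k ↔ ((h', k') : Pc G H) ∈ D.SS h' k') →
    D.SS h k ⊆ D.SS h' k' := by
  obtain ⟨s, hs⟩ := D.exists_thick
  obtain ⟨ρ, R₁, hR₁⟩ := D.near_of_corner
  obtain ⟨r₁, hr₁⟩ := D.exists_r ρ
  obtain ⟨ρ₂, hρ₂⟩ := D.exists_ρ (D.c + R₁)
  refine ⟨R + s + r₁ + ρ₂, fun h k h' k' hk hk' hZ hP hown => ?_⟩
  -- pieces and sides
  obtain ⟨U, hU, hPU, hU1, hU2⟩ := D.exists_own h k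
  obtain ⟨U', hU', hPU', hU1', hU2'⟩ := D.exists_own h' k'
  have hsame : ∀ y ∈ D.Bl (R + s + r₁ + ρ₂), y ∈ U ↔ y ∈ U' := by
    intro y hy
    by_cases hm : ((h, k) : Pc G H) ∈ D.SS h k
    · rw [hU1 hm, hU1' (hown.1 hm)]
      exact hZ y hy
    · rw [hU2 hm, hU2' (fun h' => hm (hown.2 h')), Set.mem_compl_iff, Set.mem_compl_iff,
        not_iff_not]
      exact hZ y hy
  -- the other piece is on the same side
  have hother : ∀ (h : H) (k : G) (h' : H) (k' : G) (U : Set H), D.IsSide h k U →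
      wdist D.S' 1 (h * D.F k) ≤ R →
      (∀ y ∈ D.Bl (R + s + r₁ + ρ₂), y ∈ D.P h k ↔ y ∈ D.P h' k') →
      (∀ y ∈ D.P h k, y ∉ nbhd D.S' D.R₀ (D.L h k) → y ∈ U) →
      ∀ y ∈ D.P h' k', y ∉ nbhd D.S' D.R₀ (D.L h k) → y ∈ U := by
    intro h k h' k' U hU hk hP hPU y hy hn
    obtain ⟨y₀, hy₀, hd₀, hn₀⟩ := hs h k
    have hb : y₀ ∈ D.Bl (R + s + r₁ + ρ₂) := by
      have := wdist_triangle D.gS' 1 (h * D.F k) y₀
      show wdist D.S' 1 y₀ ≤ _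
      omega
    have h1 := hPU y₀ hy₀ hn₀
    have h2 := (hP y₀ hb).1 hy₀
    rcases D.one_side h k h' k' with h3 | h3
    · rcases hU with rfl | rfl
      · exact h3 y hy hn
      · exact absurd (h3 y₀ h2 hn₀) h1
    · rcases hU with rfl | rfl
      · exact absurd h1 (h3 y₀ h2 hn₀)
      · exact h3 y hy hn
  have hPU2 := hother h k h' k' U hU hk hP hPU
  have hPU2' := hother h' k' h k U' hU' hk' (fun y hy => (hP y hy).symm) hPU'
  -- a deep point in the corner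
  have hdeep : ∀ (h : H) (k : G) (U U' : Set H), D.IsSide h k U →
      wdist D.S' 1 (h * D.F k) ≤ R → (∀ y ∈ D.Bl (R + s + r₁ + ρ₂), y ∈ U ↔ y ∈ U') →
      ∃ z, z ∉ U ∧ z ∉ U' ∧ z ∉ nbhd D.S' ρ (D.L h k) := by
    intro h k U U' hU hk hsame
    obtain ⟨⟨z₁, a1, a2, a3⟩, ⟨z₂, b1, b2, b3⟩⟩ := hr₁ h k _ (D.self_mem_L h k)
    have hb : ∀ z, wdist D.S' (h * D.F k) z ≤ r₁ → z ∈ D.Bl (R + s + r₁ + ρ₂) := by
      intro z hz
      have := wdist_triangle D.gS' 1 (h * D.F k) z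
      show wdist D.S' 1 z ≤ _
      omega
    rcases hU with rfl | rfl
    · exact ⟨z₂, b1, fun h' => b1 ((hsame z₂ (hb z₂ b2)).2 h'), b3⟩
    · exact ⟨z₁, fun h' => h' a1, fun h' => ((hsame z₁ (hb z₁ a2)).2 h') a1, a3⟩
  have hLL := hR₁ h k h' k' U U' hU hU' hPU2 hPU2' (hdeep h k U U' hU hk hsame)
  have hLL' := hR₁ h' k' h k U' U hU' hU hPU2' hPU2
    (hdeep h' k' U' U hU' hk' (fun y hy => (hsame y hy).symm))
  -- a piece on the wrong side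
  intro Y hY
  by_contra hY'
  have hbd : D.BD (D.c + R₁) (D.Z h k ∩ (D.Z h' k')ᶜ) (D.L h k) := by
    intro y hy y' hy'
    have e0 : (D.c + R₁) * wdist D.S' y y' = D.c * wdist D.S' y y' + R₁ * wdist D.S' y y' := by
      ring
    rw [e0]
    by_cases hz : y' ∈ D.Z h k
    · have hz' : y' ∈ D.Z h' k' := by
        by_contra hn
        exact hy' ⟨hz, hn⟩
      obtain ⟨l, hl, hd⟩ := D.cross (y := y) (y' := y') (fun h3 => hy.2 (h3.2 hz')) le_rfl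
      refine nbhd_mono ?_ _ (mem_nbhd_of_dist D.gS' (hLL' hl) hd)
      have := Nat.zero_le (R₁ * wdist D.S' y y')
      omega
    · refine nbhd_mono ?_ _ (D.cross (y := y) (y' := y') (fun h3 => hz (h3.1 hy.1)) le_rfl)
      have := Nat.zero_le (R₁ * wdist D.S' y y')
      omega
  obtain ⟨y, hy, hn1, hn2⟩ := D.exists_far2 (ρ₂ + D.R₀) h k h' k' Y.1 Y.2
  have hyM : y ∈ D.Z h k ∩ (D.Z h' k')ᶜ :=
    ⟨hY y hy (fun h3 => hn1 (nbhd_mono (by omega) _ h3)),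
      D.not_mem_SS hY' y hy (fun h3 => hn2 (nbhd_mono (by omega) _ h3))⟩
  obtain ⟨m, hm, hd⟩ := hρ₂ h k _ hbd ⟨y, hyM, fun h3 => hn1 (nbhd_mono (by omega) _ h3)⟩ _
    (D.self_mem_L h k)
  have hb : m ∈ D.Bl (R + s + r₁ + ρ₂) := by
    have := wdist_triangle D.gS' 1 (h * D.F k) m
    show wdist D.S' 1 m ≤ _
    omega
  exact hm.2 ((hZ m hb).1 hm.1)

/-- finitely many half-spaces have a line through a given ball -/
theorem near_finite (R : ℕ) : {A : Set (Pc G H) | ∃ (h : H) (k : G), A = D.SS h k ∧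
    ∃ p ∈ D.L h k, wdist D.S' 1 p ≤ R}.Finite := by
  obtain ⟨n, hn⟩ := D.trace_det R
  have hfin : ((𝒫 (D.Bl n)) ×ˢ ((𝒫 (D.Bl n)) ×ˢ (Set.univ : Set Prop))).Finite :=
    (D.Bl_finite n).finite_subsets.prod ((D.Bl_finite n).finite_subsets.prod Set.finite_univ)
  have hex : ∀ A ∈ {A : Set (Pc G H) | ∃ (h : H) (k : G), A = D.SS h k ∧
      ∃ p ∈ D.L h k, wdist D.S' 1 p ≤ R}, ∃ (h : H) (k : G), A = D.SS h k ∧
      wdist D.S' 1 (h * D.F k) ≤ R := by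
    rintro A ⟨h, k, rfl, p, ⟨k', hk', rfl⟩, hd⟩
    refine ⟨h, k', ?_, hd⟩
    unfold SS
    rw [D.L_congr h hk', D.Z_congr h hk']
  choose! hh hk hA hd using hex
  refine Set.Finite.of_finite_image (f := fun A => (D.Z (hh A) (hk A) ∩ D.Bl n,
    (D.P (hh A) (hk A) ∩ D.Bl n, ((hh A, hk A) : Pc G H) ∈ D.SS (hh A) (hk A))))
    (hfin.subset ?_) ?_
  · rintro _ ⟨A, -, rfl⟩
    exact ⟨Set.inter_subset_right, Set.inter_subset_right, trivial⟩
  · intro A hA1 B hB1 hAB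
    simp only [Prod.mk.injEq] at hAB
    obtain ⟨e1, e2, e3⟩ := hAB
    have f1 : ∀ y ∈ D.Bl n, y ∈ D.Z (hh A) (hk A) ↔ y ∈ D.Z (hh B) (hk B) := by
      intro y hy
      have : y ∈ D.Z (hh A) (hk A) ∩ D.Bl n ↔ y ∈ D.Z (hh B) (hk B) ∩ D.Bl n := by rw [e1]
      simpa [hy] using this
    have f2 : ∀ y ∈ D.Bl n, y ∈ D.P (hh A) (hk A) ↔ y ∈ D.P (hh B) (hk B) := by
      intro y hy
      have : y ∈ D.P (hh A) (hk A) ∩ D.Bl n ↔ y ∈ D.P (hh B) (hk B) ∩ D.Bl n := by rw [e2]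
      simpa [hy] using this
    have f3 := iff_of_eq e3
    rw [hA A hA1, hA B hB1]
    exact Set.Subset.antisymm (hn _ _ _ _ (hd A hA1) (hd B hB1) f1 f2 f3)
      (hn _ _ _ _ (hd B hB1) (hd A hA1) (fun y hy => (f1 y hy).symm)
        (fun y hy => (f2 y hy).symm) f3.symm)

/-- the same about any point -/
theorem near_finite' (R : ℕ) (y : H) : {A : Set (Pc G H) | ∃ (h : H) (k : G), A = D.SS h k ∧
    ∃ p ∈ D.L h k, wdist D.S' y p ≤ R}.Finite := by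
  refine ((D.near_finite R).image (fun A => tr y A)).subset ?_
  rintro A ⟨h, k, rfl, p, hp, hd⟩
  refine ⟨D.SS (y⁻¹ * h) k, ⟨y⁻¹ * h, k, rfl, y⁻¹ * p, ?_, ?_⟩, ?_⟩
  · rwa [D.mem_L_smul]
  · rw [← wdist_mul_left y, mul_one, mul_inv_cancel_left]
    exact hd
  · show tr y (D.SS (y⁻¹ * h) k) = D.SS h k
    rw [D.tr_SS, mul_inv_cancel_left]

end Dt

end Pool.Agent.QIS
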