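import Pool.Agent.H67.W2.G3
import Pool.Agent.H67.Q.Structure

/-!
# Separation, crossing, stabilizers, a chain
-/

set_option autoImplicit false

namespace Pool.Agent.QIS

open MulAction

namespace Dt

variable {G H : Type} [Group G] [Group H] (D : Dt G H)

/-- the line of a half-space that separates two pieces passes near a given point -/
theorem line_near (y₁ y₂ : H) {h : H} {k : G} {Y₁ Y₂ : Pc G H} (h₁ : y₁ ∈ D.P Y₁.1 Y₁.2)
    (h₂ : y₂ ∈ D.P Y₂.1 Y₂.2) (hs : ¬ (Y₁ ∈ D.SS h k ↔ Y₂ ∈ D.SS h k)) :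
    ∃ p ∈ D.L h k, wdist D.S' y₁ p ≤ D.R₀ + wdist D.S' y₁ y₂ + (D.c * wdist D.S' y₁ y₂ + D.c) := by
  by_cases hn1 : y₁ ∈ nbhd D.S' D.R₀ (D.L h k)
  · obtain ⟨p, hp, hd⟩ := hn1
    exact ⟨p, hp, by omega⟩
  by_cases hn2 : y₂ ∈ nbhd D.S' D.R₀ (D.L h k)
  · obtain ⟨p, hp, hd⟩ := hn2
    refine ⟨p, hp, ?_⟩
    have := wdist_triangle D.gS' y₁ y₂ p
    omega
  rw [D.mem_SS_iff h₁ hn1, D.mem_SS_iff h₂ hn2] at hs
  obtain ⟨p, hp, hd⟩ := D.cross hs le_rfl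
  exact ⟨p, hp, by omega⟩

theorem sep_finite (Y₁ Y₂ : Pc G H) :
    {A : Set (Pc G H) | (∃ (h : H) (k : G), A = D.SS h k) ∧ ¬ (Y₁ ∈ A ↔ Y₂ ∈ A)}.Finite := by
  refine (D.near_finite' (D.R₀ + wdist D.S' (Y₁.1 * D.F Y₁.2) (Y₂.1 * D.F Y₂.2) +
    (D.c * wdist D.S' (Y₁.1 * D.F Y₁.2) (Y₂.1 * D.F Y₂.2) + D.c)) (Y₁.1 * D.F Y₁.2)).subset ?_
  rintro A ⟨⟨h, k, rfl⟩, hs⟩
  exact ⟨h, k, rfl, D.line_near _ _ (D.self_mem_P Y₁.1 Y₁.2) (D.self_mem_P Y₂.1 Y₂.2) hs⟩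

theorem cross_finite (h : H) (k : G) :
    {B : Set (Pc G H) | (∃ (h' : H) (k' : G), B = D.SS h' k') ∧
      ¬ Nested (D.SS h k) B}.Finite := by
  obtain ⟨R, hR⟩ := D.exists_R₂
  refine (D.near_finite' R (h * D.F k)).subset ?_
  rintro B ⟨⟨h', k', rfl⟩, hn⟩
  obtain ⟨p, hp, hd⟩ := hR h k h' k' hn (D.self_mem_L h k)
  exact ⟨h', k', rfl, p, hp, hd⟩

/-- equal half-spaces have close lines -/
theorem exists_R₅ : ∃ R : ℕ, ∀ (h : H) (k : G) (h' : H) (k' : G),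
    D.SS h k = D.SS h' k' → D.L h k ⊆ nbhd D.S' R (D.L h' k') := by
  obtain ⟨r, hr⟩ := D.exists_r (D.K + D.R₀ + (D.c * D.K + D.c))
  refine ⟨r + (D.K + D.R₀) + (r + D.K + (D.c * (r + r + D.K + D.K) + D.c)),
    fun h k h' k' hS p hp => ?_⟩
  obtain ⟨⟨z₁, a1, a2, a3⟩, ⟨z₂, b1, b2, b3⟩⟩ := hr h k p hp
  -- the pieces through the two points
  have key : ∀ z, z ∉ nbhd D.S' (D.K + D.R₀ + (D.c * D.K + D.c)) (D.L h k) →
      (pc h (D.F' (h⁻¹ * z)) ∈ D.SS h k ↔ z ∈ D.Z h k) := by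
    intro z hz
    have e1 := D.d_back h z
    have hn : h * D.F (D.F' (h⁻¹ * z)) ∉ nbhd D.S' D.R₀ (D.L h k) := by
      intro h3
      exact hz (nbhd_mono (by omega) _ (mem_nbhd_of_dist D.gS' h3 e1))
    rw [D.mem_SS_iff (Y := pc h (D.F' (h⁻¹ * z))) (D.self_mem_P h _) hn]
    by_contra hc
    exact hz (nbhd_mono (by omega) _ (D.cross (y := z) (y' := h * D.F (D.F' (h⁻¹ * z)))
      (fun h3 => hc h3.symm) e1))
  have m1 : pc h (D.F' (h⁻¹ * z₁)) ∈ D.SS h' k' := by rw [← hS]; exact (key z₁ a3).2 a1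
  have m2 : pc h (D.F' (h⁻¹ * z₂)) ∉ D.SS h' k' := by
    rw [← hS]; exact fun h3 => b1 ((key z₂ b3).1 h3)
  have d1 : wdist D.S' p (h * D.F (D.F' (h⁻¹ * z₁))) ≤ r + D.K :=
    (wdist_triangle D.gS' _ _ _).trans (add_le_add a2 (D.d_back h z₁))
  have d2 : wdist D.S' p (h * D.F (D.F' (h⁻¹ * z₂))) ≤ r + D.K :=
    (wdist_triangle D.gS' _ _ _).trans (add_le_add b2 (D.d_back h z₂))
  by_cases n1 : h * D.F (D.F' (h⁻¹ * z₁)) ∈ nbhd D.S' D.R₀ (D.L h' k')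
  · exact nbhd_mono (by omega) _ (mem_nbhd_of_dist D.gS' n1 d1)
  by_cases n2 : h * D.F (D.F' (h⁻¹ * z₂)) ∈ nbhd D.S' D.R₀ (D.L h' k')
  · exact nbhd_mono (by omega) _ (mem_nbhd_of_dist D.gS' n2 d2)
  have s1 := (D.mem_SS_iff (Y := pc h (D.F' (h⁻¹ * z₁))) (D.self_mem_P h _) n1).1 m1
  have s2 := fun h3 => m2 ((D.mem_SS_iff (Y := pc h (D.F' (h⁻¹ * z₂)))
    (D.self_mem_P h _) n2).2 h3)
  have d3 : wdist D.S' (h * D.F (D.F' (h⁻¹ * z₁))) (h * D.F (D.F' (h⁻¹ * z₂))) ≤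
      r + r + D.K + D.K := by
    have := wdist_triangle D.gS' (h * D.F (D.F' (h⁻¹ * z₁))) p (h * D.F (D.F' (h⁻¹ * z₂)))
    rw [wdist_comm D.gS' _ p] at this
    omega
  have n3 := D.cross (y := h * D.F (D.F' (h⁻¹ * z₁))) (y' := h * D.F (D.F' (h⁻¹ * z₂)))
    (fun h3 => s2 (h3.1 s1)) d3
  exact nbhd_mono (by omega) _ (mem_nbhd_of_dist D.gS' n3 d1)

/-- the stabilizer of a half-space -/
def St {H I : Type} [Group H] [MulAction H I] (A : Set I) : Subgroup H where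
  carrier := {η | tr η A = A}
  one_mem' := Q4.tr_one A
  mul_mem' := by
    intro a b ha hb
    show tr (a * b) A = A
    rw [Q4.tr_mul, show tr b A = A from hb]
    exact ha
  inv_mem' := by
    intro a ha
    show tr a⁻¹ A = A
    conv_lhs => rw [← show tr a A = A from ha]
    rw [← Q4.tr_mul, inv_mul_cancel, Q4.tr_one]

theorem St_twoEnded (h : H) (k : G) : TwoEnded (St (H := H) (D.SS h k)) := by
  classical
  obtain ⟨R, hR⟩ := D.exists_R₅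
  obtain ⟨c, hcC, hc, Dc, hDc⟩ := line_of_twoEnded (S := D.S) D.hC
  have hq : IsQI D.S D.S' D.K (fun x => h * D.F x) := by
    have e1 := D.hF.twist 1 h
    have e2 : (fun x => h * D.F (1 * x)) = (fun x => h * D.F x) := by
      funext x; rw [one_mul]
    rwa [e2] at e1
  have hline := coarseLine_of_qi D.hS D.gS hq k c hc
  -- representatives
  let rep : Set (Pc G H) → H := fun B => if hB : ∃ y : H, tr y⁻¹ (D.SS h k) = B then hB.choose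
    else 1
  have hrep : ∀ y : H, tr (rep (tr y⁻¹ (D.SS h k)))⁻¹ (D.SS h k) = tr y⁻¹ (D.SS h k) := by
    intro y
    have hB : ∃ y' : H, tr y'⁻¹ (D.SS h k) = tr y⁻¹ (D.SS h k) := ⟨y, rfl⟩
    simp only [rep, dif_pos hB]
    exact hB.choose_spec
  obtain ⟨R₁, hR₁⟩ := ((D.near_finite 0).image (fun B => wlen D.S' (rep B))).bddAbove
  refine twoEnded_of_coarse (properLen_wlen D.hS' D.gS') _ _ hline
    (max R₁ (wlen D.S' (h * D.F k) + (R + (D.K * Dc + D.K)))) ?_ ?_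
  · intro κ hκ
    have hκ' : tr κ (D.SS h k) = D.SS h k := hκ
    have h1 : D.SS (κ * h) k = D.SS h k := by rw [← D.tr_SS]; exact hκ'
    obtain ⟨l, ⟨x, hx, rfl⟩, hd⟩ := hR _ _ _ _ h1 (D.self_mem_L (κ * h) k)
    obtain ⟨n, hn⟩ := hDc _ ((mem_ES_iff D.E k x).1 hx)
    refine ⟨n, ?_⟩
    have e1 : wdist D.S x (k * c ^ n) ≤ Dc := by
      have := wdist_mul_left (S := D.S) k (k⁻¹ * x) (c ^ n)
      rw [mul_inv_cancel_left] at this
      rw [this]; exact hn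
    have e2 : wdist D.S' (h * D.F x) (h * D.F (k * c ^ n)) ≤ D.K * Dc + D.K := by
      rw [wdist_mul_left]
      refine (D.hF.1 _ _).trans ?_
      gcongr
    have e3 : wdist D.S' κ (κ * h * D.F k) = wlen D.S' (h * D.F k) := by
      unfold wdist
      congr 1
      group
    have e4 := wdist_triangle D.gS' κ (κ * h * D.F k) (h * D.F (k * c ^ n))
    have e5 := wdist_triangle D.gS' (κ * h * D.F k) (h * D.F x) (h * D.F (k * c ^ n))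
    refine le_trans ?_ (le_max_right _ _)
    show wdist D.S' κ (h * D.F (k * c ^ n)) ≤ _
    omega
  · intro n
    set p := h * D.F (k * c ^ n) with hp
    have hmem : tr p⁻¹ (D.SS h k) ∈ {A : Set (Pc G H) | ∃ (h : H) (k : G), A = D.SS h k ∧
        ∃ p ∈ D.L h k, wdist D.S' 1 p ≤ 0} := by
      refine ⟨p⁻¹ * h, k, D.tr_SS _ _ _, 1, ?_, by rw [wdist_self]⟩
      have : p⁻¹ * p ∈ D.L (p⁻¹ * h) k := by
        rw [D.mem_L_smul]
        exact ⟨k * c ^ n, mem_ES_mul D.E k (D.E.edgeGroup.zpow_mem hcC n), rfl⟩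
      rwa [inv_mul_cancel] at this
    refine ⟨p * (rep (tr p⁻¹ (D.SS h k)))⁻¹, ?_, ?_⟩
    · show tr (p * (rep (tr p⁻¹ (D.SS h k)))⁻¹) (D.SS h k) = D.SS h k
      rw [Q4.tr_mul, hrep, ← Q4.tr_mul, mul_inv_cancel, Q4.tr_one]
    · refine le_trans ?_ (le_max_left _ _)
      have e1 : (p * (rep (tr p⁻¹ (D.SS h k)))⁻¹)⁻¹ * p = rep (tr p⁻¹ (D.SS h k)) := by group
      show wlen D.S' ((p * (rep (tr p⁻¹ (D.SS h k)))⁻¹)⁻¹ * p) ≤ R₁
      rw [e1]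
      exact hR₁ ⟨_, hmem, rfl⟩

theorem sd_pow (E : Splitting G) {q : G} (hq : ∀ x : E.V, sd E q x → sd E 1 x) (i : ℤ) (x : E.V) :
    sd E (q ^ (i + 1)) x → sd E (q ^ i) x := by
  intro h
  have e1 := sd_smul E (q ^ i) q ((q ^ i)⁻¹ • x)
  have e2 := sd_smul E (q ^ i) 1 ((q ^ i)⁻¹ • x)
  rw [smul_inv_smul] at e1 e2
  rw [← zpow_add_one] at e1
  rw [mul_one] at e2
  exact e2.2 (hq _ (e1.1 h))

theorem exists_chain' : ∃ q : G, ∀ i : ℤ, D.SS 1 (q ^ (i + 1)) ⊂ D.SS 1 (q ^ i) := by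
  obtain ⟨e, he⟩ := D.exists_e
  obtain ⟨q, x₀, hq, hx1, hx2, hn1, hn2⟩ := exists_chain D.hS D.gS D.E (e + (D.K * D.R₀ + D.K))
  refine ⟨q, fun i => ?_⟩
  have hsub : D.SS 1 (q ^ (i + 1)) ⊆ D.SS 1 (q ^ i) := by
    intro Y hY
    by_contra hY'
    obtain ⟨y, hy, m1, m2⟩ := D.exists_far2 D.R₀ 1 (q ^ (i + 1)) 1 (q ^ i) Y.1 Y.2
    have s1 := hY y hy m1
    exact D.not_mem_SS hY' y hy m2 (sd_pow D.E hq i _ s1)
  refine ⟨hsub, fun hsub' => ?_⟩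
  -- the piece between
  have hfar : ∀ (j : G) (R : ℕ), R ≤ e + (D.K * D.R₀ + D.K) →
      x₀ ∉ nbhd D.S (e + (D.K * D.R₀ + D.K)) (ES D.E j) →
      q ^ i * x₀ ∉ nbhd D.S R (ES D.E (q ^ i * j)) := by
    intro j R hR hn hcon
    exact hn (nbhd_mono hR _ ((nbhd_smul (S := D.S) (q ^ i) x₀ R D.E j).1 hcon))
  have key : ∀ j : G, x₀ ∉ nbhd D.S (e + (D.K * D.R₀ + D.K)) (ES D.E j) →
      (pc (1 : H) (q ^ i * x₀) ∈ D.SS 1 (q ^ i * j) ↔ sd D.E j (x₀ • D.E.a)) := by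
    intro j hn
    have n1 : (1 : H) * D.F (q ^ i * x₀) ∉ nbhd D.S' D.R₀ (D.L 1 (q ^ i * j)) :=
      fun h3 => hfar j (D.K * D.R₀ + D.K) (by omega) hn (D.near_of_F h3)
    have m := D.mem_SS_iff (Y := pc (1 : H) (q ^ i * x₀)) (y := 1 * D.F (q ^ i * x₀))
      (D.self_mem_P 1 _) n1
    refine m.trans ?_
    rw [he 1 (q ^ i * j) (q ^ i * x₀) (hfar j e (by omega) hn), mul_smul]
    exact sd_smul D.E (q ^ i) j (x₀ • D.E.a)
  have k1 := key 1 hn1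
  have k2 := key q hn2
  rw [mul_one] at k1
  rw [← zpow_add_one] at k2
  exact hx2 (k2.1 (hsub' (k1.2 hx1)))

end Dt

end Pool.Agent.QIS
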