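import Pool.Agent.H67.W2.OGraph
import Pool.Agent.H67.Q.Cuts
import Pool.Agent.H67.Q.Structure

/-!
# From the graph of a family of half-spaces to a splitting
-/

set_option autoImplicit false

namespace Pool.Agent.QIS

open MulAction

variable {H I : Type} [Group H] [MulAction H I] {W : Set (Set I)}

private lemma w2_tr_inv (h : H) (A : Set I) : tr h (tr h⁻¹ A) = A := by
  rw [← Q4.tr_mul, mul_inv_cancel, Q4.tr_one]

private lemma w2_inv_tr (h : H) (A : Set I) : tr h⁻¹ (tr h A) = A := by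
  rw [← Q4.tr_mul, inv_mul_cancel, Q4.tr_one]

/-- the image of an orientation under a group element -/
private lemma w2_isOr (w : Walls H W) (h : H) {U : Set (Set I)} (hU : IsOr W U) :
    IsOr W {A | tr h⁻¹ A ∈ U} where
  sub := by
    intro A hA
    have h1 := w.inv h _ (hU.sub hA)
    rwa [w2_tr_inv] at h1
  one := by
    intro A hA
    exact hU.one _ (w.inv h⁻¹ A hA)
  up := by
    intro A hA B hB hAB
    exact hU.up _ hA _ (w.inv h⁻¹ B hB) (Q4.tr_mono h⁻¹ hAB)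
  fin := by
    intro x
    have h1 := (hU.fin (h⁻¹ • x)).image (fun B => tr h B)
    refine h1.subset ?_
    rintro A ⟨hA, hx⟩
    exact ⟨tr h⁻¹ A, ⟨hA, fun hh => hx ((Q4.mem_tr h⁻¹ A x).1 hh)⟩, w2_tr_inv h A⟩

/-- the action on the vertices -/
@[reducible] private def w2_act (w : Walls H W) : MulAction H (Ors W) where
  smul h U := ⟨{A | tr h⁻¹ A ∈ U.1}, w2_isOr w h U.2⟩
  one_smul U := by
    apply Subtype.ext
    show {A | tr (1 : H)⁻¹ A ∈ U.1} = U.1
    ext A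
    show tr (1 : H)⁻¹ A ∈ U.1 ↔ A ∈ U.1
    rw [inv_one, Q4.tr_one]
  mul_smul g h U := by
    apply Subtype.ext
    show {A | tr (g * h)⁻¹ A ∈ U.1} = {A | tr h⁻¹ (tr g⁻¹ A) ∈ U.1}
    ext A
    show tr (g * h)⁻¹ A ∈ U.1 ↔ tr h⁻¹ (tr g⁻¹ A) ∈ U.1
    rw [mul_inv_rev, Q4.tr_mul]

/-- one side of a chain is unbounded -/
private lemma w2_unbdd (w : Walls H W) (X : ℕ → Set I) (hX : ∀ i, X i ∈ W)
    (hlt : ∀ i, X (i + 1) ⊂ X i) : Unbdd (OG W) {U : Ors W | X 0 ∈ U.1} := by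
  intro V n
  have hanti : StrictAnti X := strictAnti_nat_of_succ_lt hlt
  obtain ⟨y, hy⟩ := w.ne _ (w.compl _ (hX 0))
  have hyi : ∀ i, y ∉ X i := fun i hi => hy (hanti.antitone (Nat.zero_le i) hi)
  have hfin : {i | X i ∈ V.1}.Finite := by
    have h0 : (V.1 ∩ {A | y ∉ A}).Finite := V.2.fin y
    refine (h0.preimage (f := X) (fun a _ b _ hab => hanti.injective hab)).subset ?_
    intro i hi
    exact ⟨hi, hyi i⟩
  obtain ⟨c, hc⟩ : ∃ c : ℕ, ∀ i, c ≤ i → X i ∉ V.1 := by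
    obtain ⟨c, hc⟩ := hfin.bddAbove
    refine ⟨c + 1, fun i hi hm => ?_⟩
    have := hc hm
    omega
  obtain ⟨x, hx⟩ := w.ne _ (hX (c + n))
  have hxi : ∀ i, i ≤ c + n → x ∈ X i := fun i hi => hanti.antitone hi hx
  let U : Ors W := ⟨{A | A ∈ W ∧ x ∈ A}, isOr_point w x⟩
  have hU : ∀ i, i ≤ c + n → X i ∈ U.1 := fun i hi => ⟨hX i, hxi i hi⟩
  refine ⟨U, hU 0 (Nat.zero_le _), ?_⟩
  obtain ⟨h1, h2⟩ := og_dist w x U V
  rw [SimpleGraph.dist_comm]
  refine le_trans ?_ h2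
  have h3 : ((fun i => X (c + i)) '' (Finset.range n : Set ℕ)) ⊆ U.1 \ V.1 := by
    rintro _ ⟨i, hi, rfl⟩
    rw [Finset.coe_range, Set.mem_Iio] at hi
    exact ⟨hU _ (by omega), hc _ (by omega)⟩
  have h4 := Set.ncard_le_ncard h3 h1
  rw [Set.ncard_image_of_injective _ (fun a b hab => by
    have := hanti.injective hab
    omega), Set.ncard_coe_finset, Finset.card_range] at h4
  exact h4

theorem walls_splitting (w : Walls H W) :
    ∃ E : Splitting H, ∃ A ∈ W, ∃ F : Set H, F.Finite ∧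
      ∀ g ∈ E.edgeGroup, ∃ f ∈ F, ∃ q ∈ E.edgeGroup, tr q A = A ∧ g = f * q := by
  classical
  let _inst : MulAction H (Ors W) := w2_act w
  obtain ⟨C, hC, hlt⟩ := w.chain
  obtain ⟨x₀, -⟩ := w.ne _ (hC 0)
  have hconn : (OG W).Connected := og_connected w x₀
  have hmem : ∀ (h : H) (U : Ors W) (A : Set I), A ∈ (h • U).1 ↔ tr h⁻¹ A ∈ U.1 :=
    fun h U A => Iff.rfl
  have hmem' : ∀ (h : H) (U : Ors W) (A : Set I), tr h A ∈ (h • U).1 ↔ A ∈ U.1 := by
    intro h U A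
    rw [hmem, w2_inv_tr]
  have hdiff : ∀ (h : H) (U V : Ors W) (A : Set I), U.1 \ V.1 = {A} →
      (h • U).1 \ (h • V).1 = {tr h A} := by
    intro h U V A hUV
    ext B
    rw [Set.mem_sdiff, hmem, hmem, ← Set.mem_sdiff, hUV, Set.mem_singleton_iff,
      Set.mem_singleton_iff]
    constructor
    · intro hB
      rw [← hB, w2_tr_inv]
    · intro hB
      rw [hB, w2_inv_tr]
  have hact : ∀ (h : H) {x y : Ors W}, (OG W).Adj x y → (OG W).Adj (h • x) (h • y) := by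
    rintro h U V ⟨A, h1, h2, h3, h4⟩
    refine ⟨tr h A, (hmem' h U A).2 h1, ?_, hdiff h U V A h3, ?_⟩
    · rw [← Q4.tr_compl]
      exact (hmem' h V _).2 h2
    · rw [← Q4.tr_compl]
      exact hdiff h V U _ h4
  -- the base cut
  have hA₀ : IsCut (OG W) {U : Ors W | C 0 ∈ U.1} := by
    refine ⟨og_bdry_finite w _ (hC 0), ?_, ?_⟩
    · exact w2_unbdd w (fun i : ℕ => C i) (fun i => hC _) (fun i => by
        have := hlt i
        push_cast
        exact this)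
    · have h1 : {U : Ors W | C 0 ∈ U.1}ᶜ = {U : Ors W | (C 0)ᶜ ∈ U.1} := by
        ext U
        have := U.2.one _ (hC 0)
        show ¬ (C 0 ∈ U.1) ↔ (C 0)ᶜ ∈ U.1
        tauto
      rw [h1]
      have h2 := w2_unbdd w (fun i : ℕ => (C (-(i : ℤ)))ᶜ) (fun i => w.compl _ (hC _)) (fun i => by
        have h3 := hlt (-((i : ℤ) + 1))
        have h4 : -((i : ℤ) + 1) + 1 = -(i : ℤ) := by ring
        rw [h4] at h3
        push_cast
        exact compl_lt_compl_iff_lt.2 h3)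
      simpa using h2
  obtain ⟨A', hA', hnest, hfin⟩ := exists_nested_cut (H := H) (OG W) hconn hact _ hA₀
  -- finitely many orbits of vertices meet the ends of the boundary edges
  obtain ⟨F, hF, hcov⟩ := w.orb
  let P : Set (Ors W) := ⋃ B ∈ F ∩ W, Prod.fst '' bdry (OG W) {U : Ors W | B ∈ U.1}
  have hP : P.Finite := by
    refine Set.Finite.biUnion (hF.inter_of_left W) ?_
    rintro B ⟨-, hB⟩
    exact (og_bdry_finite w B hB).image _
  have hcof : ∀ v : Ors W, ∃ h : H, h • v ∈ P := by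
    intro v
    obtain ⟨v', hne⟩ : ∃ v' : Ors W, v' ≠ v := by
      obtain ⟨x, hx, -⟩ := hA'.2.1 v 0
      obtain ⟨y, hy, -⟩ := hA'.2.2 v 0
      by_cases hxv : x = v
      · refine ⟨y, fun hyv => hy ?_⟩
        rw [hyv, ← hxv]
        exact hx
      · exact ⟨x, hxv⟩
    obtain ⟨u, hvu⟩ : ∃ u, (OG W).Adj v u := by
      obtain ⟨p⟩ := hconn.preconnected v v'
      cases p with
      | nil => exact absurd rfl hne
      | cons h p => exact ⟨_, h⟩
    obtain ⟨A, h1, h2, h3, h4⟩ := id hvu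
    obtain ⟨h, hh⟩ := hcov A (v.2.sub h1)
    refine ⟨h, Set.mem_biUnion ⟨hh, w.inv h A (v.2.sub h1)⟩
      ⟨(h • v, h • u), ⟨hact h hvu, ?_, ?_⟩, rfl⟩⟩
    · exact (hmem' h v A).2 h1
    · intro hA
      have h5 : A ∈ u.1 := (hmem' h u A).1 hA
      have h6 : A ∈ v.1 \ u.1 := by rw [h3]; exact rfl
      exact h6.2 h5
  obtain ⟨E, hE⟩ := splitting_of_nested_cut (H := H) (OG W) hconn hact P hP hcof A' hA' hnest hfin
  -- a boundary edge
  obtain ⟨u, v, huv⟩ : ∃ u v : Ors W, (u, v) ∈ bdry (OG W) A' := by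
    obtain ⟨o⟩ := hconn.nonempty
    obtain ⟨x, hx, -⟩ := hA'.2.1 o 0
    obtain ⟨y, hy, -⟩ := hA'.2.2 o 0
    obtain ⟨p⟩ := hconn.preconnected x y
    obtain ⟨d, -, h1, h2⟩ := p.exists_boundary_dart A' hx hy
    exact ⟨d.fst, d.snd, d.adj, h1, h2⟩
  obtain ⟨A, h1, h2, h3, h4⟩ := id huv.1
  have hmove : ∀ g ∈ E.edgeGroup, (g • u, g • v) ∈ bdry (OG W) A' := by
    intro g hg
    have h5 : tr g A' = A' := (hE g).1 hg
    refine ⟨hact g huv.1, ?_, ?_⟩
    · show g • u ∈ A'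
      rw [← h5]
      show g⁻¹ • g • u ∈ A'
      rw [inv_smul_smul]; exact huv.2.1
    · show g • v ∉ A'
      rw [← h5]
      show ¬ (g⁻¹ • g • v ∈ A')
      rw [inv_smul_smul]; exact huv.2.2
  let rep : Ors W × Ors W → H := fun p =>
    if h : ∃ g ∈ E.edgeGroup, (g • u, g • v) = p then h.choose else 1
  have hrep : ∀ g ∈ E.edgeGroup, rep (g • u, g • v) ∈ E.edgeGroup ∧
      rep (g • u, g • v) • u = g • u ∧ rep (g • u, g • v) • v = g • v := by
    intro g hg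
    have h : ∃ g' ∈ E.edgeGroup, (g' • u, g' • v) = (g • u, g • v) := ⟨g, hg, rfl⟩
    simp only [rep, dif_pos h]
    have h2 := h.choose_spec.2
    rw [Prod.mk.injEq] at h2
    exact ⟨h.choose_spec.1, h2⟩
  refine ⟨E, A, u.2.sub h1, rep '' bdry (OG W) A', hA'.1.image _, fun g hg => ?_⟩
  obtain ⟨h5, h6, h7⟩ := hrep g hg
  refine ⟨_, ⟨_, hmove g hg, rfl⟩, (rep (g • u, g • v))⁻¹ * g,
    E.edgeGroup.mul_mem (E.edgeGroup.inv_mem h5) hg, ?_, by group⟩
  have h8 : ((rep (g • u, g • v))⁻¹ * g) • u = u := by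
    rw [mul_smul, inv_smul_eq_iff]; exact h6.symm
  have h9 : ((rep (g • u, g • v))⁻¹ * g) • v = v := by
    rw [mul_smul, inv_smul_eq_iff]; exact h7.symm
  have h10 := hdiff ((rep (g • u, g • v))⁻¹ * g) u v A h3
  rw [h8, h9, h3] at h10
  exact (Set.singleton_injective h10).symm

end Pool.Agent.QIS
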