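import Pool.Agent.H67.W2.G4
import Pool.Agent.H67.W2.OAction
import Pool.Agent.H67.Q.Par

/-!
# The second main theorem: one uncrossed subgroup is enough
-/

set_option autoImplicit false

namespace Pool.Agent.QIS

open MulAction

theorem nested_symm {V : Type} {A B : Set V} (h : Nested A B) : Nested B A := by
  unfold Nested at *
  rcases h with h | h | h | h
  · exact Or.inr (Or.inr (Or.inr (Set.compl_subset_compl.2 h)))
  · refine Or.inr (Or.inl ?_)
    intro x hx hA
    exact h hA hx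
  · refine Or.inr (Or.inr (Or.inl ?_))
    intro x hx
    by_contra hA
    exact hx (h hA)
  · refine Or.inl ?_
    intro x hx
    by_contra hA
    exact h hA hx

theorem nested_compl_right {V : Type} {A B : Set V} : Nested A Bᶜ ↔ Nested A B := by
  constructor
  · intro h
    have := Q4.nested_compl h
    rwa [compl_compl] at this
  · exact Q4.nested_compl

theorem nested_compl_left {V : Type} {A B : Set V} : Nested Aᶜ B ↔ Nested A B := by
  constructor
  · intro h
    have := Q4.nested_compl' h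
    rwa [compl_compl] at this
  · exact Q4.nested_compl'

namespace Dt

variable {G H : Type} [Group G] [Group H] (D : Dt G H)

/-- the family of all half-spaces -/
def WW : Set (Set (Pc G H)) := {A | ∃ (h : H) (k : G), A = D.SS h k ∨ A = (D.SS h k)ᶜ}

theorem walls : Walls H D.WW where
  compl := by
    rintro A ⟨h, k, rfl | rfl⟩
    · exact ⟨h, k, Or.inr rfl⟩
    · exact ⟨h, k, Or.inl (compl_compl _)⟩
  inv := by
    rintro η A ⟨h, k, rfl | rfl⟩
    · exact ⟨η * h, k, Or.inl (D.tr_SS η h k)⟩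
    · exact ⟨η * h, k, Or.inr (by rw [Q4.tr_compl, D.tr_SS])⟩
  ne := by
    obtain ⟨q, hq⟩ := D.exists_chain'
    -- all half-spaces and complements are nonempty
    obtain ⟨r, hr⟩ := D.exists_r (D.K + D.R₀ + (D.c * D.K + D.c))
    have key : ∀ (h : H) (k : G) (z : H),
        z ∉ nbhd D.S' (D.K + D.R₀ + (D.c * D.K + D.c)) (D.L h k) →
        (pc h (D.F' (h⁻¹ * z)) ∈ D.SS h k ↔ z ∈ D.Z h k) := by
      intro h k z hz
      have e1 := D.d_back h z
      have hn : h * D.F (D.F' (h⁻¹ * z)) ∉ nbhd D.S' D.R₀ (D.L h k) := by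
        intro h3
        exact hz (nbhd_mono (by omega) _ (mem_nbhd_of_dist D.gS' h3 e1))
      rw [D.mem_SS_iff (Y := pc h (D.F' (h⁻¹ * z))) (D.self_mem_P h _) hn]
      by_contra hc
      exact hz (nbhd_mono (by omega) _ (D.cross (y := z) (y' := h * D.F (D.F' (h⁻¹ * z)))
        (fun h3 => hc h3.symm) e1))
    rintro A ⟨h, k, rfl | rfl⟩
    · obtain ⟨⟨z, a1, -, a3⟩, -⟩ := hr h k _ (D.self_mem_L h k)
      exact ⟨_, (key h k z a3).2 a1⟩
    · obtain ⟨-, ⟨z, b1, -, b3⟩⟩ := hr h k _ (D.self_mem_L h k)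
      exact ⟨_, fun h3 => b1 ((key h k z b3).1 h3)⟩
  sep := by
    intro x y
    refine ((D.sep_finite x y).union ((D.sep_finite x y).image (fun A => Aᶜ))).subset ?_
    rintro A ⟨⟨h, k, rfl | rfl⟩, hx, hy⟩
    · exact Or.inl ⟨⟨h, k, rfl⟩, fun h3 => hy (h3.1 hx)⟩
    · refine Or.inr ⟨D.SS h k, ⟨⟨h, k, rfl⟩, fun h3 => ?_⟩, rfl⟩
      rw [Set.mem_compl_iff, not_not] at hy
      exact hx (h3.2 hy)
  cross := by
    have key : ∀ (h : H) (k : G), {B | B ∈ D.WW ∧ ¬ Nested (D.SS h k) B}.Finite := by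
      intro h k
      refine ((D.cross_finite h k).union ((D.cross_finite h k).image (fun A => Aᶜ))).subset ?_
      rintro B ⟨⟨h', k', rfl | rfl⟩, hn⟩
      · exact Or.inl ⟨⟨h', k', rfl⟩, hn⟩
      · refine Or.inr ⟨D.SS h' k', ⟨⟨h', k', rfl⟩, ?_⟩, rfl⟩
        rwa [nested_compl_right] at hn
    rintro A ⟨h, k, rfl | rfl⟩
    · exact key h k
    · refine (key h k).subset ?_
      rintro B ⟨hB, hn⟩
      refine ⟨hB, ?_⟩
      rwa [nested_compl_left] at hn
  orb := by
    refine ⟨{A | ∃ (h : H) (k : G), A = D.SS h k ∧ ∃ p ∈ D.L h k, wdist D.S' 1 p ≤ 0} ∪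
      (fun A => Aᶜ) '' {A | ∃ (h : H) (k : G), A = D.SS h k ∧
        ∃ p ∈ D.L h k, wdist D.S' 1 p ≤ 0}, (D.near_finite 0).union ((D.near_finite 0).image _),
        ?_⟩
    have key : ∀ (h : H) (k : G), D.SS ((h * D.F k)⁻¹ * h) k ∈
        {A : Set (Pc G H) | ∃ (h : H) (k : G), A = D.SS h k ∧
          ∃ p ∈ D.L h k, wdist D.S' 1 p ≤ 0} := by
      intro h k
      refine ⟨_, _, rfl, 1, ?_, by rw [wdist_self]⟩
      have : (h * D.F k)⁻¹ * (h * D.F k) ∈ D.L ((h * D.F k)⁻¹ * h) k := by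
        rw [D.mem_L_smul]
        exact D.self_mem_L h k
      rwa [inv_mul_cancel] at this
    rintro A ⟨h, k, rfl | rfl⟩
    · refine ⟨(h * D.F k)⁻¹, Or.inl ?_⟩
      rw [D.tr_SS]
      exact key h k
    · refine ⟨(h * D.F k)⁻¹, Or.inr ⟨_, key h k, ?_⟩⟩
      show (D.SS ((h * D.F k)⁻¹ * h) k)ᶜ = tr (h * D.F k)⁻¹ (D.SS h k)ᶜ
      rw [Q4.tr_compl, D.tr_SS]
  chain := by
    obtain ⟨q, hq⟩ := D.exists_chain'
    exact ⟨fun i => D.SS 1 (q ^ i), fun i => ⟨1, q ^ i, Or.inl rfl⟩, hq⟩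

theorem St_compl {I : Type} [MulAction H I] (A : Set I) : St (H := H) Aᶜ = St (H := H) A := by
  ext η
  constructor
  · intro h
    have h' : tr η Aᶜ = Aᶜ := h
    rw [Q4.tr_compl] at h'
    exact compl_injective h'
  · intro h
    have h' : tr η A = A := h
    show tr η Aᶜ = Aᶜ
    rw [Q4.tr_compl, h']

include D in
theorem splits : SplitsOverTwoEnded H := by
  obtain ⟨E', A, hA, F, hF, hcov⟩ := walls_splitting D.walls
  refine ⟨E', ?_⟩
  have hinf : Infinite E'.edgeGroup :=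
    infinite_edgeGroup D.S D.S' D.hS D.hS' D.gS D.gS' D.hone D.K D.F D.hF E'
  have hSt : TwoEnded (St (H := H) A) := by
    obtain ⟨h, k, rfl | rfl⟩ := hA
    · exact D.St_twoEnded h k
    · rw [St_compl]; exact D.St_twoEnded h k
  let Q : Subgroup ↥(St (H := H) A) := E'.edgeGroup.subgroupOf (St (H := H) A)
  have hQinf : Infinite Q := by
    by_contra hQ
    rw [not_infinite_iff_finite] at hQ
    have h1 : {q : H | q ∈ E'.edgeGroup ∧ q ∈ St (H := H) A}.Finite := by
      have h2 : Set.Finite (Set.range (fun q : Q => ((q : ↥(St (H := H) A)) : H))) :=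
        Set.finite_range _
      refine h2.subset ?_
      rintro q ⟨hq1, hq2⟩
      exact ⟨⟨⟨q, hq2⟩, Subgroup.mem_subgroupOf.2 hq1⟩, rfl⟩
    have h3 : ((E'.edgeGroup : Set H)).Finite := by
      refine (hF.image2 (fun f q => f * q) h1).subset ?_
      intro g hg
      obtain ⟨f, hf, q, hq1, hq2, rfl⟩ := hcov g hg
      exact ⟨f, hf, q, ⟨hq1, hq2⟩, rfl⟩
    exact (Set.infinite_coe_iff.1 hinf) h3
  have hQte : TwoEnded Q := (TwoEnded.of_infinite hSt Q hQinf).1
  have hQte' : TwoEnded (Q.map (St (H := H) A).subtype) :=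
    TwoEnded.congr (Q.equivMapOfInjective _ (Subgroup.subtype_injective _)) hQte
  rw [twoEnded_iff_cover] at hQte' ⊢
  obtain ⟨z, hz, hzinf, F₂, hF₂, hcov₂⟩ := hQte'
  have hmem : ∀ q : H, q ∈ Q.map (St (H := H) A).subtype ↔
      q ∈ E'.edgeGroup ∧ q ∈ St (H := H) A := by
    intro q
    rw [Subgroup.mem_map]
    constructor
    · rintro ⟨x, hx, rfl⟩
      exact ⟨Subgroup.mem_subgroupOf.1 hx, x.2⟩
    · rintro ⟨h1, h2⟩
      exact ⟨⟨q, h2⟩, Subgroup.mem_subgroupOf.2 h1, rfl⟩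
  refine ⟨z, ((hmem z).1 hz).1, hzinf, Set.image2 (fun f q => f * q) F F₂,
    hF.image2 _ hF₂, fun g hg => ?_⟩
  obtain ⟨f, hf, q, hq1, hq2, rfl⟩ := hcov g hg
  obtain ⟨f', hf', n, hn⟩ := hcov₂ q ((hmem q).2 ⟨hq1, hq2⟩)
  refine ⟨f * f', ⟨f, hf, f', hf', rfl⟩, n, ?_⟩
  rw [hn, mul_assoc]

end Dt

/-- Let `G` be a finitely generated one-ended group that splits over a two-ended subgroup `C`, and
let `A` be a subgroup of `G` that contains `C`, is not two-ended and is uncrossed: no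
quasi-isometry of `G` moves it across `C`. Then every finitely generated group quasi-isometric to
`G` splits over a two-ended subgroup. -/
theorem main_theorem2 (G H : Type) [Group G] [Group H] (S : Set G) (S' : Set H) (hS : S.Finite)
    (hS' : S'.Finite) (hSg : Subgroup.closure S = ⊤) (hS'g : Subgroup.closure S' = ⊤)
    (hone : OneEnded S) (E : Splitting G) (hC : TwoEnded E.edgeGroup) (A : Subgroup G)
    (hCA : E.edgeGroup ≤ A) (hA : ¬ TwoEnded A) (hnc : NotCrossed S E A)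
    (hqi : ∃ (K : ℕ) (F : G → H), IsQI S S' K F) : SplitsOverTwoEnded H := by
  obtain ⟨K, F, hF⟩ := hqi
  obtain ⟨K', F', hF', h1, h2⟩ := exists_quasiInverse hSg hS'g K F hF
  let D : Dt G H :=
    { S := S, S' := S', hS := hS, hS' := hS', gS := hSg, gS' := hS'g, hone := hone, E := E
      hC := hC, A := A, hCA := hCA, hA := hA, nc := hnc
      K := max K K'
      F := F
      F' := F'
      hF := hF.mono (le_max_left _ _)
      hF' := hF'.mono (le_max_right _ _)
      h1 := fun y => (h1 y).trans (le_max_right _ _)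
      h2 := fun x => (h2 x).trans (le_max_right _ _) }
  exact D.splits

end Pool.Agent.QIS
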