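import Pool.Agent.H67.W2.Defs

/-!
# The graph of a family of half-spaces

Row W1 of project QI2 (MP_bbdce3_al).
-/

set_option autoImplicit false

namespace Pool.Agent.QIS

open MulAction

section W1
variable {H I : Type} [Group H] [MulAction H I] {W : Set (Set I)}

/-- the vertex of a point -/
theorem isOr_point (w : Walls H W) (x : I) : IsOr W {A | A ∈ W ∧ x ∈ A} where
  sub := fun A hA => hA.1
  one := fun A hA => ⟨fun h h' => h'.2 h.2, fun h => ⟨hA, by
    by_contra hx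
    exact h ⟨w.compl A hA, hx⟩⟩⟩
  up := fun A hA B hB hAB => ⟨hB, hAB hA.2⟩
  fin := fun y => (w.sep x y).subset (fun A hA => ⟨hA.1.1, hA.1.2, hA.2⟩)

/-- a member is not in both an orientation and, complemented, in it -/
theorem w1_not {U : Set (Set I)} (hU : IsOr W U) {A : Set I} (hA : A ∈ U) : Aᶜ ∉ U :=
  (hU.one A (hU.sub hA)).1 hA

theorem w1_of {U : Set (Set I)} (hU : IsOr W U) {A : Set I} (hA : A ∈ W) (h : A ∉ U) :
    Aᶜ ∈ U := by
  by_contra h'
  exact h ((hU.one A hA).2 h')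

theorem w1_fin (x₀ : I) (U V : Ors W) : (U.1 \ V.1).Finite := by
  refine ((U.2.fin x₀).union ((V.2.fin x₀).image compl)).subset ?_
  rintro A ⟨hA, hA'⟩
  by_cases hx : x₀ ∈ A
  · right
    exact ⟨Aᶜ, ⟨w1_of V.2 (U.2.sub hA) hA', fun h => h hx⟩, compl_compl A⟩
  · left
    exact ⟨hA, hx⟩

/-- turning over a minimal member -/
def w1_flip (U : Set (Set I)) (A : Set I) : Set (Set I) := {B | (B ∈ U ∧ B ≠ A) ∨ B = Aᶜ}

theorem w1_ne (w : Walls H W) {A : Set I} (hA : A ∈ W) : A ≠ Aᶜ := by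
  intro h
  obtain ⟨x, hx⟩ := w.ne A hA
  have hx' : x ∈ Aᶜ := h ▸ hx
  exact hx' hx

theorem w1_isOr (w : Walls H W) {U : Set (Set I)} (hU : IsOr W U) {A : Set I} (hA : A ∈ U)
    (hmin : ∀ B ∈ U, B ⊆ A → B = A) : IsOr W (w1_flip U A) := by
  have hAW : A ∈ W := hU.sub hA
  have hAne : A ≠ Aᶜ := w1_ne w hAW
  have hAc : Aᶜ ∉ U := w1_not hU hA
  refine ⟨?_, ?_, ?_, ?_⟩
  · rintro B (⟨hB, -⟩ | rfl)
    · exact hU.sub hB
    · exact w.compl A hAW
  · intro B hB
    by_cases h1 : B = A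
    · subst h1
      constructor
      · rintro (⟨-, h⟩ | h)
        · exact absurd rfl h
        · exact absurd h hAne
      · intro h
        exact absurd (Or.inr rfl) h
    by_cases h2 : B = Aᶜ
    · subst h2
      constructor
      · rintro - (⟨-, h⟩ | h)
        · exact h (compl_compl A)
        · rw [compl_compl] at h
          exact hAne h
      · intro _
        exact Or.inr rfl
    constructor
    · rintro (⟨hBU, -⟩ | h)
      · rintro (⟨h3, -⟩ | h3)
        · exact w1_not hU hBU h3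
        · exact h1 (compl_injective h3)
      · exact absurd h h2
    · intro h
      left
      refine ⟨?_, h1⟩
      by_contra h3
      refine h (Or.inl ⟨w1_of hU hB h3, ?_⟩)
      intro h4
      apply h2
      rw [← h4, compl_compl]
  · rintro B (⟨hB, hBA⟩ | rfl) B' hB' hBB'
    · left
      refine ⟨hU.up B hB B' hB' hBB', ?_⟩
      rintro rfl
      exact hBA (hmin B hB hBB')
    · by_contra hcon
      have h1 : B' ≠ A := by
        rintro rfl
        obtain ⟨x, hx⟩ := w.ne _ (w.compl _ hAW)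
        exact hx (hBB' hx)
      have h2 : B' ∉ U := fun h => hcon (Or.inl ⟨h, h1⟩)
      have h3 : B'ᶜ ∈ U := w1_of hU hB' h2
      have h4 : B'ᶜ ⊆ A := by
        rw [Set.compl_subset_comm]
        exact hBB'
      have h5 := hmin _ h3 h4
      apply hcon
      right
      rw [← h5, compl_compl]
  · intro x
    refine ((hU.fin x).union (Set.finite_singleton Aᶜ)).subset ?_
    rintro B ⟨(⟨hB, -⟩ | rfl), hx⟩
    · exact Or.inl ⟨hB, hx⟩
    · exact Or.inr rfl

theorem w1_eq_of_subset {U V : Set (Set I)} (hU : IsOr W U) (hV : IsOr W V) (h : U ⊆ V) :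
    U = V := by
  refine Set.Subset.antisymm h fun B hB => ?_
  by_contra h1
  exact w1_not hV hB (h (w1_of hU (hV.sub hB) h1))

theorem w1_reach (w : Walls H W) (x₀ : I) (n : ℕ) : ∀ U V : Ors W, (U.1 \ V.1).ncard = n →
    (OG W).Reachable U V := by
  induction n with
  | zero =>
    intro U V h
    have h1 : U.1 \ V.1 = ∅ := (Set.ncard_eq_zero (w1_fin x₀ U V)).1 h
    have h2 : U = V := Subtype.ext (w1_eq_of_subset U.2 V.2 (Set.sdiff_eq_empty.1 h1))
    rw [h2]
  | succ n ih =>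
    intro U V h
    have hfin := w1_fin x₀ U V
    have hne : (U.1 \ V.1).Nonempty := by
      rw [Set.nonempty_iff_ne_empty]
      intro h0
      rw [h0, Set.ncard_empty] at h
      omega
    obtain ⟨A, hA⟩ := hfin.exists_minimal hne
    have hAU : A ∈ U.1 := hA.prop.1
    have hAV : A ∉ V.1 := hA.prop.2
    have hmin : ∀ B ∈ U.1, B ⊆ A → B = A := by
      intro B hB hBA
      by_cases hBV : B ∈ V.1
      · exact absurd (V.2.up B hBV A (U.2.sub hAU) hBA) hAV
      · exact Set.Subset.antisymm hBA (hA.le_of_le ⟨hB, hBV⟩ hBA)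
    have hAW := U.2.sub hAU
    have hAc : Aᶜ ∉ U.1 := w1_not U.2 hAU
    have hAne : A ≠ Aᶜ := w1_ne w hAW
    let U' : Ors W := ⟨w1_flip U.1 A, w1_isOr w U.2 hAU hmin⟩
    have hadj : (OG W).Adj U U' := by
      refine ⟨A, hAU, Or.inr rfl, ?_, ?_⟩
      · ext B
        constructor
        · rintro ⟨hB, hB'⟩
          by_contra h1
          exact hB' (Or.inl ⟨hB, h1⟩)
        · rintro rfl
          refine ⟨hAU, ?_⟩
          rintro (⟨-, h1⟩ | h1)
          · exact h1 rfl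
          · exact hAne h1
      · ext B
        constructor
        · rintro ⟨(⟨hB, -⟩ | h1), hB'⟩
          · exact absurd hB hB'
          · exact h1
        · rintro rfl
          exact ⟨Or.inr rfl, hAc⟩
    have hdiff : U'.1 \ V.1 = (U.1 \ V.1) \ {A} := by
      ext B
      constructor
      · rintro ⟨(⟨hB, hBA⟩ | rfl), hB'⟩
        · exact ⟨⟨hB, hB'⟩, hBA⟩
        · exact absurd (w1_of V.2 hAW hAV) hB'
      · rintro ⟨⟨hB, hB'⟩, hBA⟩
        exact ⟨Or.inl ⟨hB, hBA⟩, hB'⟩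
    have hcard : (U'.1 \ V.1).ncard = n := by
      have hmem : A ∈ U.1 \ V.1 := ⟨hAU, hAV⟩
      rw [hdiff, Set.ncard_sdiff_singleton_of_mem hmem, h]
      rfl
    exact hadj.reachable.trans (ih U' V hcard)

theorem og_connected (w : Walls H W) (x₀ : I) : (OG W).Connected where
  preconnected := fun U V => w1_reach w x₀ _ U V rfl
  nonempty := ⟨⟨_, isOr_point w x₀⟩⟩

/-- an edge in the boundary of the cut of a member turns over this member -/
theorem w1_edge {A : Set I} {U V : Ors W} (h : (OG W).Adj U V) (hU : A ∈ U.1) (hV : A ∉ V.1) :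
    U.1 \ V.1 = {A} ∧ V.1 \ U.1 = {Aᶜ} := by
  obtain ⟨A', -, -, h3, h4⟩ := h
  have h5 : A ∈ U.1 \ V.1 := ⟨hU, hV⟩
  rw [h3] at h5
  have h6 : A = A' := h5
  subst h6
  exact ⟨h3, h4⟩

theorem w1_min {A : Set I} {U V : Ors W} (h : (OG W).Adj U V) (hU : A ∈ U.1) (hV : A ∉ V.1) :
    ∀ B ∈ U.1, B ⊆ A → B = A := by
  intro B hB hBA
  by_contra hne
  have h1 : B ∈ V.1 := by
    by_contra h2
    have h3 : B ∈ U.1 \ V.1 := ⟨hB, h2⟩
    rw [(w1_edge h hU hV).1] at h3
    exact hne h3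
  exact hV (V.2.up B h1 A (U.2.sub hU) hBA)

theorem w1_inj (w : Walls H W) {A : Set I} {U V U₂ V₂ : Ors W} (h : (OG W).Adj U V)
    (hU : A ∈ U.1) (hV : A ∉ V.1) (h₂ : (OG W).Adj U₂ V₂) (hU₂ : A ∈ U₂.1) (hV₂ : A ∉ V₂.1)
    (he : U.1 ∩ {B | B ∈ W ∧ ¬ Nested A B} ⊆ U₂.1) : U.1 ⊆ U₂.1 := by
  intro B hB
  have hBW := U.2.sub hB
  by_cases hn : Nested A B
  · rcases hn with h1 | h1 | h1 | h1
    · exact U₂.2.up A hU₂ B hBW h1
    · exact absurd (U.2.up A hU _ (w.compl B hBW) h1) (w1_not U.2 hB)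
    · by_contra h2
      have h3 := w1_of U₂.2 hBW h2
      have h4 : Bᶜ ⊆ A := by
        rw [Set.compl_subset_comm]
        exact h1
      have h5 := w1_min h₂ hU₂ hV₂ _ h3 h4
      have h6 : B = Aᶜ := by rw [← h5, compl_compl]
      rw [h6] at hB
      exact w1_not U.2 hU hB
    · have h2 : B ⊆ A := Set.compl_subset_compl.1 h1
      rw [w1_min h hU hV B hB h2]
      exact hU₂
  · exact he ⟨hB, hBW, hn⟩

theorem w1_mem {A : Set I} {U V : Ors W} (h : (OG W).Adj U V) (hU : A ∈ U.1)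
    (hV : A ∉ V.1) (B : Set I) : B ∈ V.1 ↔ (B ∈ U.1 ∧ B ≠ A) ∨ B = Aᶜ := by
  obtain ⟨h1, h2⟩ := w1_edge h hU hV
  constructor
  · intro hB
    by_cases hBU : B ∈ U.1
    · left
      refine ⟨hBU, ?_⟩
      rintro rfl
      exact hV hB
    · right
      have h3 : B ∈ V.1 \ U.1 := ⟨hB, hBU⟩
      rw [h2] at h3
      exact h3
  · rintro (⟨hB, hBA⟩ | rfl)
    · by_contra hBV
      have h3 : B ∈ U.1 \ V.1 := ⟨hB, hBV⟩
      rw [h1] at h3
      exact hBA h3
    · have h3 : Aᶜ ∈ V.1 \ U.1 := by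
        rw [h2]
        exact rfl
      exact h3.1

/-- the cut of a member has finite boundary -/
theorem og_bdry_finite (w : Walls H W) (A : Set I) (hA : A ∈ W) :
    (bdry (OG W) {U : Ors W | A ∈ U.1}).Finite := by
  refine Set.Finite.of_finite_image (f := fun p : Ors W × Ors W =>
    p.1.1 ∩ {B | B ∈ W ∧ ¬ Nested A B}) ((w.cross A hA).finite_subsets.subset ?_) ?_
  · rintro _ ⟨p, -, rfl⟩
    exact Set.inter_subset_right
  · rintro ⟨U, V⟩ ⟨h, hU, hV⟩ ⟨U₂, V₂⟩ ⟨h₂, hU₂, hV₂⟩ he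
    have he' : U.1 ∩ {B | B ∈ W ∧ ¬ Nested A B} = U₂.1 ∩ {B | B ∈ W ∧ ¬ Nested A B} := he
    have h1 : U = U₂ := by
      apply Subtype.ext
      refine Set.Subset.antisymm ?_ ?_
      · exact w1_inj w h hU hV h₂ hU₂ hV₂ (he'.subset.trans Set.inter_subset_left)
      · exact w1_inj w h₂ hU₂ hV₂ h hU hV (he'.symm.subset.trans Set.inter_subset_left)
    subst h1
    have h2 : V = V₂ := by
      apply Subtype.ext
      ext B
      rw [w1_mem h hU hV B, w1_mem h₂ hU₂ hV₂ B]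
    subst h2
    rfl

theorem w1_walk (x₀ : I) {U V : Ors W} (p : (OG W).Walk U V) :
    (U.1 \ V.1).ncard ≤ p.length := by
  induction p with
  | nil => simp
  | @cons U U₁ V h q ih =>
    obtain ⟨A, -, -, h3, -⟩ := h
    have h4 : U.1 \ V.1 ⊆ (U.1 \ U₁.1) ∪ (U₁.1 \ V.1) := by
      rintro B ⟨hB, hB'⟩
      by_cases h5 : B ∈ U₁.1
      · exact Or.inr ⟨h5, hB'⟩
      · exact Or.inl ⟨hB, h5⟩
    have h6 := Set.ncard_le_ncard h4 ((w1_fin x₀ U U₁).union (w1_fin x₀ U₁ V))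
    have h7 := Set.ncard_union_le (U.1 \ U₁.1) (U₁.1 \ V.1)
    have h8 : (U.1 \ U₁.1).ncard = 1 := by
      rw [h3]
      exact Set.ncard_singleton A
    rw [SimpleGraph.Walk.length_cons]
    omega

/-- the number of members turned over is at most the distance -/
theorem og_dist (w : Walls H W) (x₀ : I) (U V : Ors W) :
    (U.1 \ V.1).Finite ∧ (U.1 \ V.1).ncard ≤ (OG W).dist U V := by
  refine ⟨w1_fin x₀ U V, ?_⟩
  obtain ⟨p, hp⟩ := (og_connected w x₀).exists_walk_length_eq_dist U V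
  rw [← hp]
  exact w1_walk x₀ p

end W1

end Pool.Agent.QIS
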