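import Pool.Agent.H67.Q.Words

/-!
# Small sets do not separate a product of two groups
-/

set_option autoImplicit false

namespace Pool.Agent.QIS

section slices
variable {A : Type} [Group A] {S : Set A}

theorem exists_prev (hSg : Subgroup.closure S = ⊤) {x x' : A} {m : ℕ} (h : wdist S x x' ≤ m + 1) :
    ∃ x'' s : A, wdist S x x'' ≤ m ∧ (s = 1 ∨ s ∈ S ∨ s⁻¹ ∈ S) ∧ x' = x'' * s := by
  obtain ⟨l, hl, hprod, hlen⟩ := q6_exists_word hSg (x⁻¹ * x')
  have hlen' : l.length ≤ m + 1 := by rw [hlen]; exact h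
  rcases List.eq_nil_or_concat l with rfl | ⟨l', s, rfl⟩
  · refine ⟨x', 1, ?_, Or.inl rfl, by rw [mul_one]⟩
    have h1 : (1 : A) = x⁻¹ * x' := by simpa using hprod
    have h2 : x' = x := by
      rw [eq_comm, inv_mul_eq_one] at h1
      exact h1.symm
    rw [h2, wdist_self]
    exact Nat.zero_le _
  · refine ⟨x * l'.prod, s, ?_, ?_, ?_⟩
    · unfold wdist
      rw [inv_mul_cancel_left]
      refine (q6_wlen_le S l' (fun y hy => hl y ?_) rfl).trans ?_
      · rw [List.concat_eq_append]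
        exact List.mem_append_left _ hy
      · rw [List.concat_eq_append, List.length_append, List.length_singleton] at hlen'
        omega
    · right
      refine hl s ?_
      rw [List.concat_eq_append]
      simp
    · rw [List.concat_eq_append, List.prod_append, List.prod_singleton] at hprod
      rw [mul_assoc, hprod, mul_inv_cancel_left]

/-- a property that changes only in `U` is constant on balls that avoid `U` -/
theorem slice_const (hSg : Subgroup.closure S = ⊤) (σ : A → Prop) (U : Set A)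
    (hσ : ∀ x s, (s ∈ S ∨ s⁻¹ ∈ S) → x ∉ U → (σ x ↔ σ (x * s))) (x : A) (n : ℕ)
    (hU : ∀ x', wdist S x x' ≤ n → x' ∉ U) : ∀ x', wdist S x x' ≤ n → (σ x ↔ σ x') := by
  have key : ∀ m, m ≤ n → ∀ x', wdist S x x' ≤ m → (σ x ↔ σ x') := by
    intro m
    induction m with
    | zero =>
      intro _ x' hx'
      obtain ⟨l, hl, hprod, hlen⟩ := q6_exists_word hSg (x⁻¹ * x')
      have h0 : l.length = 0 := by
        have : wlen S (x⁻¹ * x') ≤ 0 := hx'
        omega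
      rw [List.length_eq_zero_iff] at h0
      subst h0
      have h1 : (1 : A) = x⁻¹ * x' := by simpa using hprod
      rw [eq_comm, inv_mul_eq_one] at h1
      rw [h1]
    | succ m ih =>
      intro hm x' hx'
      obtain ⟨x'', s, h1, h2, rfl⟩ := exists_prev hSg hx'
      have h3 := ih (by omega) x'' h1
      rcases h2 with rfl | h2
      · rw [mul_one]; exact h3
      · exact h3.trans (hσ x'' s h2 (hU x'' (by omega)))
  exact key n le_rfl

end slices

variable {A₁ A₂ : Type} [Group A₁] [Group A₂] {S₁ : Set A₁} {S₂ : Set A₂}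

/-- the box about a point -/
def box (S₁ : Set A₁) (S₂ : Set A₂) (p : A₁ × A₂) (n : ℕ) : Set (A₁ × A₂) :=
  {q | wdist S₁ p.1 q.1 ≤ n ∧ wdist S₂ p.2 q.2 ≤ n}

theorem box_finite (h₁ : S₁.Finite) (h₂ : S₂.Finite) (g₁ : Subgroup.closure S₁ = ⊤)
    (g₂ : Subgroup.closure S₂ = ⊤) (p : A₁ × A₂) (n : ℕ) : (box S₁ S₂ p n).Finite :=
  ((ball_finite h₁ g₁ p.1 n).prod (ball_finite h₂ g₂ p.2 n)).subset fun _ hq => ⟨hq.1, hq.2⟩

theorem ball_ncard {A : Type} [Group A] (S : Set A) (x : A) (n : ℕ) :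
    {y | wdist S x y ≤ n}.ncard = {a : A | wlen S a ≤ n}.ncard := by
  have h : {y | wdist S x y ≤ n} = (fun a => x * a) '' {a : A | wlen S a ≤ n} := by
    ext y
    constructor
    · intro hy
      exact ⟨x⁻¹ * y, hy, by group⟩
    · rintro ⟨a, ha, rfl⟩
      show wlen S (x⁻¹ * (x * a)) ≤ n
      rw [inv_mul_cancel_left]
      exact ha
  rw [h, Set.ncard_image_of_injective _ (mul_right_injective x)]

/-- sets which are small in all large boxes do not separate the product -/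
theorem prod_const (h₁ : S₁.Finite) (h₂ : S₂.Finite) (g₁ : Subgroup.closure S₁ = ⊤)
    (g₂ : Subgroup.closure S₂ = ⊤) (σ : A₁ × A₂ → Prop) (U : Set (A₁ × A₂))
    (hσ₁ : ∀ x y s, (s ∈ S₁ ∨ s⁻¹ ∈ S₁) → (x, y) ∉ U → (σ (x, y) ↔ σ (x * s, y)))
    (hσ₂ : ∀ x y s, (s ∈ S₂ ∨ s⁻¹ ∈ S₂) → (x, y) ∉ U → (σ (x, y) ↔ σ (x, y * s)))
    (n₀ : ℕ) (hn₀ : 1 ≤ n₀)
    (hs : ∀ p n, n₀ ≤ n → (U ∩ box S₁ S₂ p (4 * n)).ncard < {a : A₁ | wlen S₁ a ≤ n}.ncard ∧
      (U ∩ box S₁ S₂ p (4 * n)).ncard < {a : A₂ | wlen S₂ a ≤ n}.ncard)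
    (p q : A₁ × A₂) (hp : ∀ z ∈ box S₁ S₂ p (4 * n₀), z ∉ U)
    (hq : ∀ z ∈ box S₁ S₂ q (4 * n₀), z ∉ U) : σ p ↔ σ q := by
  classical
  -- slices
  have hV : ∀ x y n, (∀ y', wdist S₂ y y' ≤ n → (x, y') ∉ U) →
      ∀ y', wdist S₂ y y' ≤ n → (σ (x, y) ↔ σ (x, y')) := by
    intro x y n hU
    exact slice_const g₂ (fun y => σ (x, y)) {y | (x, y) ∈ U} (fun y s hs hy => hσ₂ x y s hs hy)
      y n hU
  have hH : ∀ x y n, (∀ x', wdist S₁ x x' ≤ n → (x', y) ∉ U) →
      ∀ x', wdist S₁ x x' ≤ n → (σ (x, y) ↔ σ (x', y)) := by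
    intro x y n hU
    exact slice_const g₁ (fun x => σ (x, y)) {x | (x, y) ∈ U} (fun x s hs hx => hσ₁ x y s hs hx)
      x n hU
  -- good slices
  have gV : ∀ (p : A₁ × A₂) (n : ℕ), n₀ ≤ n → ∃ v, wdist S₁ p.1 v ≤ n ∧
      ∀ y', wdist S₂ p.2 y' ≤ 4 * n → (v, y') ∉ U := by
    intro p n hn
    by_contra hcon
    push Not at hcon
    choose! f hf1 hf2 using hcon
    have h1 := (hs p n hn).1
    rw [← ball_ncard S₁ p.1 n] at h1
    refine absurd h1 (not_lt.2 ?_)
    refine Set.ncard_le_ncard_of_injOn (fun v => (v, f v)) ?_ ?_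
      ((box_finite h₁ h₂ g₁ g₂ p (4 * n)).inter_of_right U)
    · intro v hv
      have hv' : wdist S₁ p.1 v ≤ n := hv
      exact ⟨hf2 v hv', show wdist S₁ p.1 v ≤ 4 * n by omega, hf1 v hv'⟩
    · intro v _ v' _ hvv
      exact congrArg Prod.fst hvv
  have gH : ∀ (p : A₁ × A₂) (n : ℕ), n₀ ≤ n → ∃ w, wdist S₂ p.2 w ≤ n ∧
      ∀ x', wdist S₁ p.1 x' ≤ 4 * n → (x', w) ∉ U := by
    intro p n hn
    by_contra hcon
    push Not at hcon
    choose! f hf1 hf2 using hcon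
    have h1 := (hs p n hn).2
    rw [← ball_ncard S₂ p.2 n] at h1
    refine absurd h1 (not_lt.2 ?_)
    refine Set.ncard_le_ncard_of_injOn (fun w => (f w, w)) ?_ ?_
      ((box_finite h₁ h₂ g₁ g₂ p (4 * n)).inter_of_right U)
    · intro w hw
      have hw' : wdist S₂ p.2 w ≤ n := hw
      exact ⟨hf2 w hw', hf1 w hw', show wdist S₂ p.2 w ≤ 4 * n by omega⟩
    · intro w _ w' _ hww
      exact congrArg Prod.snd hww
  choose! v hv1 hv2 using gV
  choose! w hw1 hw2 using gH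
  -- the value at the crossing of the good slices does not depend on the scale
  have hstart : ∀ p : A₁ × A₂, (∀ z ∈ box S₁ S₂ p (4 * n₀), z ∉ U) →
      (σ p ↔ σ (v p n₀, w p n₀)) := by
    intro p hp
    have e1 : σ (p.1, p.2) ↔ σ (v p n₀, p.2) := by
      refine hH p.1 p.2 (4 * n₀) (fun x' hx' => hp _ ⟨hx', ?_⟩) _ ?_
      · show wdist S₂ p.2 p.2 ≤ 4 * n₀
        rw [wdist_self]; exact Nat.zero_le _
      · have := hv1 p n₀ le_rfl
        omega
    refine e1.trans ?_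
    refine hV (v p n₀) p.2 (4 * n₀) (hv2 p n₀ le_rfl) _ ?_
    have := hw1 p n₀ le_rfl
    omega
  have hstep : ∀ (p : A₁ × A₂) (n : ℕ), n₀ ≤ n →
      (σ (v p n, w p n) ↔ σ (v p (n + 1), w p (n + 1))) := by
    intro p n hn
    have a1 := hv1 p n hn
    have a2 := hw1 p n hn
    have a3 := hv1 p (n + 1) (by omega)
    have a4 := hw1 p (n + 1) (by omega)
    have e1 : σ (v p n, p.2) ↔ σ (v p n, w p n) :=
      hV _ _ (4 * n) (hv2 p n hn) _ (by omega)
    have e2 : σ (v p n, p.2) ↔ σ (v p n, w p (n + 1)) :=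
      hV _ _ (4 * n) (hv2 p n hn) _ (by omega)
    have e3 : σ (p.1, w p (n + 1)) ↔ σ (v p n, w p (n + 1)) :=
      hH _ _ (4 * (n + 1)) (hw2 p (n + 1) (by omega)) _ (by omega)
    have e4 : σ (p.1, w p (n + 1)) ↔ σ (v p (n + 1), w p (n + 1)) :=
      hH _ _ (4 * (n + 1)) (hw2 p (n + 1) (by omega)) _ (by omega)
    exact e1.symm.trans (e2.trans (e3.symm.trans e4))
  have hall : ∀ (p : A₁ × A₂) (n : ℕ), n₀ ≤ n →
      (σ (v p n₀, w p n₀) ↔ σ (v p n, w p n)) := by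
    intro p n hn
    induction n, hn using Nat.le_induction with
    | base => exact Iff.rfl
    | succ n hn ih => exact ih.trans (hstep p n hn)
  -- two points
  set n := n₀ + wdist S₁ p.1 q.1 + wdist S₂ p.2 q.2 with hn
  have hn' : n₀ ≤ n := by omega
  have b1 := hv1 p n hn'
  have b2 := hw1 p n hn'
  have b3 := hv1 q n hn'
  have b4 := hw1 q n hn'
  have e1 : σ (v p n, p.2) ↔ σ (v p n, w p n) := hV _ _ (4 * n) (hv2 p n hn') _ (by omega)
  have e2 : σ (v p n, p.2) ↔ σ (v p n, w q n) := by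
    refine hV _ _ (4 * n) (hv2 p n hn') _ ?_
    have := wdist_triangle g₂ p.2 q.2 (w q n)
    omega
  have e3 : σ (q.1, w q n) ↔ σ (v p n, w q n) := by
    refine hH _ _ (4 * n) (hw2 q n hn') _ ?_
    have := wdist_triangle g₁ q.1 p.1 (v p n)
    rw [wdist_comm g₁ q.1 p.1] at this
    omega
  have e4 : σ (q.1, w q n) ↔ σ (v q n, w q n) := hH _ _ (4 * n) (hw2 q n hn') _ (by omega)
  calc σ p ↔ σ (v p n₀, w p n₀) := hstart p hp
    _ ↔ σ (v p n, w p n) := hall p n hn'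
    _ ↔ σ (v q n, w q n) := e1.symm.trans (e2.trans (e3.symm.trans e4))
    _ ↔ σ (v q n₀, w q n₀) := (hall q n hn').symm
    _ ↔ σ q := (hstart q hq).symm

end Pool.Agent.QIS
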