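import Pool.Agent.H67.W2.Prod1
import Pool.Agent.H67.W2.Main2

/-!
# Products of groups that grow faster than the edge group are uncrossed
-/

set_option autoImplicit false

namespace Pool.Agent.QIS

open MulAction

variable {G : Type} [Group G] {S : Set G} {A₁ A₂ : Type} [Group A₁] [Group A₂] {S₁ : Set A₁}
  {S₂ : Set A₂}

/-- homomorphisms are Lipschitz -/
theorem hom_lip {A : Type} [Group A] {T : Set A} (hT : T.Finite) (gT : Subgroup.closure T = ⊤)
    (hSg : Subgroup.closure S = ⊤) (f : A →* G) : ∃ Λ : ℕ,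
      (∀ x y : A, wdist S (f x) (f y) ≤ Λ * wdist T x y) ∧
      ∀ s, (s ∈ T ∨ s⁻¹ ∈ T) → wlen S (f s) ≤ Λ := by
  obtain ⟨Λ, hΛ⟩ := (hT.image (fun s => wlen S (f s))).bddAbove
  have h1 : ∀ s, (s ∈ T ∨ s⁻¹ ∈ T) → wlen S (f s) ≤ Λ := by
    rintro s (hs | hs)
    · exact hΛ ⟨s, hs, rfl⟩
    · have := hΛ ⟨s⁻¹, hs, rfl⟩
      simp only [map_inv] at this
      rwa [q6_inv hSg] at this
  refine ⟨Λ, fun x y => ?_, h1⟩
  obtain ⟨l, hl, hprod, hlen⟩ := q6_exists_word gT (x⁻¹ * y)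
  have h2 : ∀ l : List A, (∀ x ∈ l, x ∈ T ∨ x⁻¹ ∈ T) → wlen S (f l.prod) ≤ Λ * l.length := by
    intro l
    induction l with
    | nil =>
      intro _
      rw [List.prod_nil, map_one, q6_one]
      exact Nat.zero_le _
    | cons s l ih =>
      intro hl
      rw [List.prod_cons, map_mul, List.length_cons]
      refine (q6_mul hSg _ _).trans ?_
      have h3 := ih (fun x hx => hl x (List.mem_cons_of_mem _ hx))
      have h4 := h1 s (hl s List.mem_cons_self)
      calc wlen S (f s) + wlen S (f l.prod) ≤ Λ + Λ * l.length := add_le_add h4 h3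
        _ = Λ * (l.length + 1) := by ring
  have h3 := h2 l hl
  rw [hprod, hlen] at h3
  have h4 : (f x)⁻¹ * f y = f (x⁻¹ * y) := by rw [map_mul, map_inv]
  unfold wdist
  rw [h4]
  exact h3

/-- the growth hypothesis: the group `A` grows faster than `C` does in `G` -/
def GrowsFaster {G A : Type} [Group G] [Group A] (S : Set G) (C : Subgroup G) (T : Set A) : Prop :=
  ∀ m : ℕ, ∃ n₀ : ℕ, ∀ n, n₀ ≤ n →
    m * {c : G | c ∈ C ∧ wlen S c ≤ m * n}.ncard < {a : A | wlen T a ≤ n}.ncard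

theorem GrowsFaster.infinite {A : Type} [Group A] {T : Set A} {C : Subgroup G}
    (hS : S.Finite) (hSg : Subgroup.closure S = ⊤) (h : GrowsFaster S C T) :
    Infinite A := by
  by_contra hA
  rw [not_infinite_iff_finite] at hA
  obtain ⟨n₀, hn₀⟩ := h (Nat.card A + 1)
  have h1 := hn₀ n₀ le_rfl
  have h2 : {a : A | wlen T a ≤ n₀}.ncard ≤ Nat.card A := by
    rw [← Set.ncard_univ]
    exact Set.ncard_le_ncard (Set.subset_univ _) Set.finite_univ
  have h3 : 0 < {c : G | c ∈ C ∧ wlen S c ≤ (Nat.card A + 1) * n₀}.ncard := by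
    exact (Set.ncard_pos (hs := ((properLen_wlen hS hSg).fin _).subset fun c hc => hc.2)).2
      ⟨1, C.one_mem, by rw [q6_one]; exact Nat.zero_le _⟩
  have h4 : (Nat.card A + 1) * 1 ≤
      (Nat.card A + 1) * {c : G | c ∈ C ∧ wlen S c ≤ (Nat.card A + 1) * n₀}.ncard :=
    Nat.mul_le_mul_left _ h3
  omega

/-- a product of two infinite groups is not two-ended -/
theorem not_twoEnded_prod (hA₁ : Infinite A₁) (hA₂ : Infinite A₂) : ¬ TwoEnded (A₁ × A₂) := by
  intro h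
  let K : Subgroup (A₁ × A₂) := (MonoidHom.snd A₁ A₂).ker
  have hKinf : Infinite K := by
    refine Infinite.of_injective (fun x : A₁ => (⟨(x, 1), rfl⟩ : K)) ?_
    intro x y hxy
    exact congrArg (fun z : K => (z : A₁ × A₂).1) hxy
  have hKf := (TwoEnded.of_infinite h K hKinf).2
  have hfin : Finite ((A₁ × A₂) ⧸ K) := Subgroup.finite_quotient_of_finiteIndex
  have e := QuotientGroup.quotientKerEquivOfSurjective (MonoidHom.snd A₁ A₂)
    (fun y => ⟨(1, y), rfl⟩)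
  have : Finite A₂ := Finite.of_equiv _ e.toEquiv
  exact not_finite A₂

theorem prod_notCrossed (hS : S.Finite) (hSg : Subgroup.closure S = ⊤) (E : Splitting G)
    (h₁ : S₁.Finite) (h₂ : S₂.Finite) (g₁ : Subgroup.closure S₁ = ⊤)
    (g₂ : Subgroup.closure S₂ = ⊤) (ι : A₁ × A₂ →* G) (hι : Function.Injective ι)
    (hg₁ : GrowsFaster S E.edgeGroup S₁) (hg₂ : GrowsFaster S E.edgeGroup S₂) :
    NotCrossed S E ι.range := by
  classical
  intro K
  obtain ⟨r₀, h₀⟩ := exists_cross hS hSg E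
  obtain ⟨Λ₁, hΛ₁, hΛ₁'⟩ := hom_lip h₁ g₁ hSg (ι.comp (MonoidHom.inl A₁ A₂))
  obtain ⟨Λ₂, hΛ₂, hΛ₂'⟩ := hom_lip h₂ g₂ hSg (ι.comp (MonoidHom.inr A₁ A₂))
  -- distances in the product
  have hd₁ : ∀ x x' y, wdist S (ι (x, y)) (ι (x', y)) ≤ Λ₁ * wdist S₁ x x' := by
    intro x x' y
    have e : (ι (x, y))⁻¹ * ι (x', y) =
        (ι.comp (MonoidHom.inl A₁ A₂) x)⁻¹ * ι.comp (MonoidHom.inl A₁ A₂) x' := by
      simp only [MonoidHom.comp_apply, MonoidHom.inl_apply, ← map_inv, ← map_mul]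
      congr 1
      ext <;> simp
    have := hΛ₁ x x'
    unfold wdist at this ⊢
    rw [e]; exact this
  have hd₂ : ∀ x y y', wdist S (ι (x, y)) (ι (x, y')) ≤ Λ₂ * wdist S₂ y y' := by
    intro x y y'
    have e : (ι (x, y))⁻¹ * ι (x, y') =
        (ι.comp (MonoidHom.inr A₁ A₂) y)⁻¹ * ι.comp (MonoidHom.inr A₁ A₂) y' := by
      simp only [MonoidHom.comp_apply, MonoidHom.inr_apply, ← map_inv, ← map_mul]
      congr 1
      ext <;> simp
    have := hΛ₂ y y'
    unfold wdist at this ⊢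
    rw [e]; exact this
  have hbox : ∀ (p q : A₁ × A₂) (n : ℕ), q ∈ box S₁ S₂ p n →
      wdist S (ι p) (ι q) ≤ (Λ₁ + Λ₂) * n := by
    rintro ⟨x, y⟩ ⟨x', y'⟩ n ⟨hq1, hq2⟩
    have e1 := hd₁ x x' y
    have e2 := hd₂ x' y y'
    have e3 := wdist_triangle hSg (ι (x, y)) (ι (x', y)) (ι (x', y'))
    have e4 : Λ₁ * wdist S₁ x x' ≤ Λ₁ * n := Nat.mul_le_mul_left _ hq1
    have e5 : Λ₂ * wdist S₂ y y' ≤ Λ₂ * n := Nat.mul_le_mul_left _ hq2
    rw [add_mul]
    omega
  -- constants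
  set t := K * (Λ₁ + Λ₂) + K with ht
  set r₁ := t + r₀ with hr₁
  set β := {b : G | wlen S b ≤ K}.ncard * {b : G | wlen S b ≤ r₁}.ncard with hβ
  set μ := β + (8 * K * (Λ₁ + Λ₂) + 2 * K + 2 * r₁) with hμ
  obtain ⟨m₁, hm₁⟩ := hg₁ μ
  obtain ⟨m₂, hm₂⟩ := hg₂ μ
  set n₀ := m₁ + m₂ + 1 with hn₀
  refine ⟨K * ((Λ₁ + Λ₂) * (4 * n₀)) + K + r₁, fun φ hφ => ?_⟩
  -- the set near the edge group
  set U : Set (A₁ × A₂) := {q | φ (ι q) ∈ nbhd S r₁ (E.edgeGroup : Set G)} with hU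
  have hES : (ES E 1) = (E.edgeGroup : Set G) := by
    ext g
    rw [mem_ES_iff]
    simp
  have hcross : ∀ p q : A₁ × A₂, wdist S (ι p) (ι q) ≤ Λ₁ + Λ₂ → p ∉ U →
      (side E.T E.a E.b (φ (ι p) • E.a) ↔ side E.T E.a E.b (φ (ι q) • E.a)) := by
    intro p q hpq hp
    by_contra hn
    refine hp ?_
    have e1 := h₀ 1 (φ (ι p)) (φ (ι q)) (by
      unfold sd
      rw [one_smul, one_smul]
      exact hn)
    rw [hES] at e1
    refine nbhd_mono ?_ _ e1
    have e2 := hφ.1 (ι p) (ι q)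
    have e3 : K * wdist S (ι p) (ι q) ≤ K * (Λ₁ + Λ₂) := Nat.mul_le_mul_left _ hpq
    omega
  -- U is small
  have hsmall : ∀ (p : A₁ × A₂) (n : ℕ), n₀ ≤ n → (U ∩ box S₁ S₂ p (4 * n)).ncard ≤
      μ * {c : G | c ∈ E.edgeGroup ∧ wlen S c ≤ μ * n}.ncard := by
    intro p n hn
    rcases (U ∩ box S₁ S₂ p (4 * n)).eq_empty_or_nonempty with he | ⟨q₀, hq₀U, hq₀B⟩
    · rw [he, Set.ncard_empty]
      exact Nat.zero_le _
    obtain ⟨c₀, hc₀, hd₀⟩ := hq₀U
    -- choices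
    have hcc : ∀ g : G, ∃ c : G, g ∈ nbhd S r₁ (E.edgeGroup : Set G) →
        c ∈ E.edgeGroup ∧ wdist S g c ≤ r₁ := by
      intro g
      by_cases h : g ∈ nbhd S r₁ (E.edgeGroup : Set G)
      · obtain ⟨c, hc, hd⟩ := h
        exact ⟨c, fun _ => ⟨hc, hd⟩⟩
      · exact ⟨1, fun h' => absurd h' h⟩
    choose cc hcc using hcc
    have hpp : ∀ g : G, ∃ x : G, ∀ y, φ y = g → φ x = g := by
      intro g
      by_cases h : ∃ y, φ y = g
      · exact ⟨h.choose, fun _ _ => h.choose_spec⟩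
      · exact ⟨1, fun y hy => absurd ⟨y, hy⟩ h⟩
    choose ψ hψ using hpp
    have hfinC : ({c : G | c ∈ E.edgeGroup ∧ wlen S c ≤ μ * n}).Finite :=
      ((properLen_wlen hS hSg).fin _).subset fun c hc => hc.2
    have hfin : (({b : G | wlen S b ≤ K} ×ˢ {b : G | wlen S b ≤ r₁}) ×ˢ
        {c : G | c ∈ E.edgeGroup ∧ wlen S c ≤ μ * n}).Finite :=
      (((properLen_wlen hS hSg).fin _).prod ((properLen_wlen hS hSg).fin _)).prod hfinC
    have hle : (U ∩ box S₁ S₂ p (4 * n)).ncard ≤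
        (({b : G | wlen S b ≤ K} ×ˢ {b : G | wlen S b ≤ r₁}) ×ˢ
        {c : G | c ∈ E.edgeGroup ∧ wlen S c ≤ μ * n}).ncard := by
      refine Set.ncard_le_ncard_of_injOn (fun q => (((ψ (φ (ι q)))⁻¹ * ι q,
        (cc (φ (ι q)))⁻¹ * φ (ι q)), c₀⁻¹ * cc (φ (ι q)))) ?_ ?_ hfin
      · rintro q ⟨hqU, hqB⟩
        obtain ⟨hc1, hc2⟩ := hcc (φ (ι q)) hqU
        refine ⟨⟨?_, ?_⟩, ?_, ?_⟩
        · have e1 := hφ.2.1 (ψ (φ (ι q))) (ι q)
          rw [hψ (φ (ι q)) (ι q) rfl, wdist_self, mul_zero, zero_add] at e1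
          exact e1
        · show wdist S (cc (φ (ι q))) (φ (ι q)) ≤ r₁
          rw [wdist_comm hSg]; exact hc2
        · exact E.edgeGroup.mul_mem (E.edgeGroup.inv_mem hc₀) hc1
        · show wdist S c₀ (cc (φ (ι q))) ≤ μ * n
          have e1 := hbox p q _ hqB
          have e2 := hbox p q₀ _ hq₀B
          have e3 := wdist_triangle hSg (ι q₀) (ι p) (ι q)
          rw [wdist_comm hSg (ι q₀) (ι p)] at e3
          have e4 := hφ.1 (ι q₀) (ι q)
          have e5 : K * wdist S (ι q₀) (ι q) ≤ K * ((Λ₁ + Λ₂) * (4 * n) + (Λ₁ + Λ₂) * (4 * n)) :=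
            Nat.mul_le_mul_left _ (by omega)
          have e6 := wdist_triangle hSg c₀ (φ (ι q₀)) (cc (φ (ι q)))
          have e7 := wdist_triangle hSg (φ (ι q₀)) (φ (ι q)) (cc (φ (ι q)))
          rw [wdist_comm hSg c₀ (φ (ι q₀))] at e6
          have e8 : K * ((Λ₁ + Λ₂) * (4 * n) + (Λ₁ + Λ₂) * (4 * n)) =
              8 * K * (Λ₁ + Λ₂) * n := by ring
          have e9 : μ * n = β * n + (8 * K * (Λ₁ + Λ₂) * n + 2 * K * n + 2 * r₁ * n) := by
            rw [hμ]; ring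
          have hn1 : 1 ≤ n := by omega
          have e10 : 2 * K * 1 ≤ 2 * K * n := Nat.mul_le_mul_left _ hn1
          have e11 : 2 * r₁ * 1 ≤ 2 * r₁ * n := Nat.mul_le_mul_left _ hn1
          have e12 := Nat.zero_le (β * n)
          rw [e8] at e5
          have e13 : wdist S (φ (ι q₀)) (φ (ι q)) ≤ 8 * K * (Λ₁ + Λ₂) * n + K :=
            e4.trans (Nat.add_le_add_right e5 _)
          have e14 : wdist S c₀ (cc (φ (ι q))) ≤
              r₁ + ((8 * K * (Λ₁ + Λ₂) * n + K) + r₁) :=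
            e6.trans (add_le_add hd₀ (e7.trans (add_le_add e13 hc2)))
          refine e14.trans ?_
          rw [e9]
          have e15 : r₁ + r₁ ≤ 2 * r₁ * n := by omega
          have e16 : K ≤ 2 * K * n := by omega
          calc r₁ + ((8 * K * (Λ₁ + Λ₂) * n + K) + r₁)
              = 8 * K * (Λ₁ + Λ₂) * n + K + (r₁ + r₁) := by ring
            _ ≤ 8 * K * (Λ₁ + Λ₂) * n + 2 * K * n + 2 * r₁ * n :=
                add_le_add (add_le_add le_rfl e16) e15
            _ ≤ _ := Nat.le_add_left _ _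
      · rintro q ⟨hqU, -⟩ q' ⟨hq'U, -⟩ hqq
        simp only [Prod.mk.injEq] at hqq
        obtain ⟨⟨f1, f2⟩, f3⟩ := hqq
        have f3' := mul_left_cancel f3
        rw [f3'] at f2
        have f2' := mul_left_cancel f2
        rw [f2'] at f1
        exact hι (mul_left_cancel f1)
    refine hle.trans ?_
    rw [Set.ncard_prod, Set.ncard_prod]
    refine Nat.mul_le_mul_right _ ?_
    rw [hμ, hβ]
    exact Nat.le_add_right _ _
  -- the property is constant on deep points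
  have hconst : ∀ p q : A₁ × A₂, (∀ z ∈ box S₁ S₂ p (4 * n₀), z ∉ U) →
      (∀ z ∈ box S₁ S₂ q (4 * n₀), z ∉ U) →
      (side E.T E.a E.b (φ (ι p) • E.a) ↔ side E.T E.a E.b (φ (ι q) • E.a)) := by
    intro p q hp hq
    refine prod_const h₁ h₂ g₁ g₂ (fun p => side E.T E.a E.b (φ (ι p) • E.a)) U ?_ ?_ n₀
      (by omega) ?_ p q hp hq
    · intro x y s hs hxy
      refine hcross (x, y) (x * s, y) ?_ hxy
      have e1 := hΛ₁' s hs
      have e2 : wdist S (ι (x, y)) (ι (x * s, y)) = wlen S (ι.comp (MonoidHom.inl A₁ A₂) s) := by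
        unfold wdist
        congr 1
        simp only [MonoidHom.comp_apply, MonoidHom.inl_apply, ← map_inv, ← map_mul]
        congr 1
        ext <;> simp
      rw [e2]
      exact e1.trans (Nat.le_add_right _ _)
    · intro x y s hs hxy
      refine hcross (x, y) (x, y * s) ?_ hxy
      have e1 := hΛ₂' s hs
      have e2 : wdist S (ι (x, y)) (ι (x, y * s)) = wlen S (ι.comp (MonoidHom.inr A₁ A₂) s) := by
        unfold wdist
        congr 1
        simp only [MonoidHom.comp_apply, MonoidHom.inr_apply, ← map_inv, ← map_mul]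
        congr 1
        ext <;> simp
      rw [e2]
      exact e1.trans (Nat.le_add_left _ _)
    · intro p n hn
      exact ⟨(hsmall p n hn).trans_lt (hm₁ n (by omega)),
        (hsmall p n hn).trans_lt (hm₂ n (by omega))⟩
  -- far points are deep
  have hdeep : ∀ p : A₁ × A₂, φ (ι p) ∉ nbhd S (K * ((Λ₁ + Λ₂) * (4 * n₀)) + K + r₁)
      (E.edgeGroup : Set G) → ∀ z ∈ box S₁ S₂ p (4 * n₀), z ∉ U := by
    intro p hp z hz hzU
    refine hp ?_
    have e1 := hbox p z _ hz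
    have e2 := hφ.1 (ι p) (ι z)
    have e3 : K * wdist S (ι p) (ι z) ≤ K * ((Λ₁ + Λ₂) * (4 * n₀)) := Nat.mul_le_mul_left _ e1
    exact mem_nbhd_of_dist hSg hzU (by omega)
  by_cases hex : ∃ p : A₁ × A₂, φ (ι p) ∉ nbhd S (K * ((Λ₁ + Λ₂) * (4 * n₀)) + K + r₁)
      (E.edgeGroup : Set G) ∧ side E.T E.a E.b (φ (ι p) • E.a)
  · obtain ⟨p, hp1, hp2⟩ := hex
    left
    rintro _ ⟨q, rfl⟩ hq
    exact (hconst p q (hdeep p hp1) (hdeep q hq)).1 hp2
  · right
    rintro _ ⟨q, rfl⟩ hq hs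
    exact hex ⟨q, hq, hs⟩

/-- Let `G` be a finitely generated one-ended group that splits over a two-ended subgroup `C`, and
suppose that `C` is contained in a subgroup of `G` which is the direct product of two finitely
generated groups that grow faster than `C` does in `G`. Then every finitely generated group
quasi-isometric to `G` splits over a two-ended subgroup. -/
theorem prod_theorem (G H A₁ A₂ : Type) [Group G] [Group H] [Group A₁] [Group A₂] (S : Set G)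
    (S' : Set H) (S₁ : Set A₁) (S₂ : Set A₂) (hS : S.Finite) (hS' : S'.Finite) (h₁ : S₁.Finite)
    (h₂ : S₂.Finite) (hSg : Subgroup.closure S = ⊤) (hS'g : Subgroup.closure S' = ⊤)
    (g₁ : Subgroup.closure S₁ = ⊤) (g₂ : Subgroup.closure S₂ = ⊤)
    (hone : OneEnded S) (E : Splitting G) (hC : TwoEnded E.edgeGroup)
    (ι : A₁ × A₂ →* G) (hι : Function.Injective ι) (hCA : E.edgeGroup ≤ ι.range)
    (hg₁ : GrowsFaster S E.edgeGroup S₁) (hg₂ : GrowsFaster S E.edgeGroup S₂)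
    (hqi : ∃ (K : ℕ) (F : G → H), IsQI S S' K F) : SplitsOverTwoEnded H := by
  have hA : ¬ TwoEnded ι.range := by
    intro h
    have e : A₁ × A₂ ≃* ι.range := ι.ofInjective hι
    exact not_twoEnded_prod (hg₁.infinite hS hSg) (hg₂.infinite hS hSg)
      (TwoEnded.congr e.symm h)
  exact main_theorem2 G H S S' hS hS' hSg hS'g hone E hC ι.range hCA hA
    (prod_notCrossed hS hSg E h₁ h₂ g₁ g₂ ι hι hg₁ hg₂) hqi

end Pool.Agent.QIS
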